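import Pool.Agent.Work.MP_40b2ba_co.Defs

set_option autoImplicit false
set_option linter.unusedSectionVars false

/-!
# Basic facts (proved)
-/

namespace Pool.Agent.Work.MP_40b2ba_co

variable {V : Type*} {M : V → V → ℝ}

theorem Sk.self (h : Sk M) (a : V) : M a a = 0 := by
  have := h.skew a a
  linarith

theorem Sk.ne_zero (h : Sk M) {a b : V} (hab : a ≠ b) : M a b ≠ 0 := by
  intro h0
  have := h.sq a b hab
  rw [h0] at this
  norm_num at this

theorem Sk.cases (h : Sk M) {a b : V} (hab : a ≠ b) : M a b = 1 ∨ M a b = -1 := by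
  have h1 := h.sq a b hab
  have h2 : (M a b - 1) * (M a b + 1) = 0 := by linear_combination h1
  rcases mul_eq_zero.1 h2 with h3 | h3
  · left
    linarith
  · right
    linarith

theorem Sk.abs_le (h : Sk M) (a b : V) : |M a b| ≤ 1 := by
  by_cases hab : a = b
  · rw [hab, h.self]
    norm_num
  · rcases h.cases hab with h1 | h1 <;> rw [h1] <;> norm_num

theorem Sk.sq_le (h : Sk M) (a b : V) : M a b ^ 2 ≤ 1 := by
  have := h.abs_le a b
  rw [← sq_abs]
  nlinarith [abs_nonneg (M a b)]

/-- a product of entries has absolute value at most one -/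
theorem abs_mul_le_one {x y : ℝ} (hx : |x| ≤ 1) (hy : |y| ≤ 1) : |x * y| ≤ 1 := by
  rw [abs_mul]
  exact mul_le_one₀ hx (abs_nonneg _) hy

variable [Fintype V]

theorem pp_comm (M : V → V → ℝ) (a b : V) : pp M a b = pp M b a :=
  Finset.sum_congr rfl fun z _ => mul_comm _ _

theorem pp_col (h : Sk M) (a b : V) : ∑ x, M x a * M x b = pp M a b := by
  refine Finset.sum_congr rfl fun x _ => ?_
  rw [h.skew x a, h.skew x b]
  ring

theorem ta_12 (M : V → V → ℝ) (a b c : V) : ta M b a c = ta M a b c :=
  Finset.sum_congr rfl fun z _ => by ring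

theorem ta_23 (M : V → V → ℝ) (a b c : V) : ta M a c b = ta M a b c :=
  Finset.sum_congr rfl fun z _ => by ring

theorem ka_12 (M : V → V → ℝ) (a b c d : V) : ka M b a c d = ka M a b c d :=
  Finset.sum_congr rfl fun z _ => by ring

theorem ka_23 (M : V → V → ℝ) (a b c d : V) : ka M a c b d = ka M a b c d :=
  Finset.sum_congr rfl fun z _ => by ring

theorem ka_34 (M : V → V → ℝ) (a b c d : V) : ka M a b d c = ka M a b c d :=
  Finset.sum_congr rfl fun z _ => by ring

theorem pp_self (h : Sk M) (a : V) : pp M a a = Fintype.card V - 1 := by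
  classical
  have h1 : ∀ z, M a z * M a z = 1 - (if z = a then 1 else 0) := by
    intro z
    by_cases hz : z = a
    · rw [hz, h.self]
      simp
    · rw [h.sq a z (Ne.symm hz)]
      simp [hz]
  rw [pp, Finset.sum_congr rfl fun z _ => h1 z, Finset.sum_sub_distrib]
  simp

theorem ta_self (h : Sk M) (a b : V) : ta M a a b = rr M b - M b a := by
  classical
  have h1 : ∀ z, M a z * M a z * M b z = M b z - (if z = a then M b a else 0) := by
    intro z
    by_cases hz : z = a
    · rw [hz, h.self]
      simp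
    · rw [h.sq a z (Ne.symm hz)]
      simp [hz]
  rw [ta, Finset.sum_congr rfl fun z _ => h1 z, Finset.sum_sub_distrib, rr]
  simp

theorem ka_self (h : Sk M) (a c d : V) : ka M a a c d = pp M c d - M c a * M d a := by
  classical
  have h1 : ∀ z, M a z * M a z * M c z * M d z = M c z * M d z - (if z = a then M c a * M d a else 0) := by
    intro z
    by_cases hz : z = a
    · rw [hz, h.self]
      simp
    · rw [h.sq a z (Ne.symm hz)]
      simp [hz]
  rw [ka, Finset.sum_congr rfl fun z _ => h1 z, Finset.sum_sub_distrib, pp]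
  simp

theorem abs_sum_le_card {g : V → ℝ} (hg : ∀ z, |g z| ≤ 1) : |∑ z, g z| ≤ Fintype.card V := by
  refine (Finset.abs_sum_le_sum_abs _ _).trans ((Finset.sum_le_sum fun z _ => hg z).trans ?_)
  simp

theorem abs_pp_le (h : Sk M) (a b : V) : |pp M a b| ≤ Fintype.card V :=
  abs_sum_le_card fun z => abs_mul_le_one (h.abs_le a z) (h.abs_le b z)

theorem abs_ta_le (h : Sk M) (a b c : V) : |ta M a b c| ≤ Fintype.card V :=
  abs_sum_le_card fun z => abs_mul_le_one (abs_mul_le_one (h.abs_le a z) (h.abs_le b z)) (h.abs_le c z)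

theorem abs_ka_le (h : Sk M) (a b c d : V) : |ka M a b c d| ≤ Fintype.card V :=
  abs_sum_le_card fun z => abs_mul_le_one
    (abs_mul_le_one (abs_mul_le_one (h.abs_le a z) (h.abs_le b z)) (h.abs_le c z)) (h.abs_le d z)

theorem xi_12 (h : Sk M) (a b c : V) : xi M b a c = - xi M a b c := by
  rw [xi, xi, h.skew b a, h.skew a c, h.skew b c]
  ring

theorem xi_rot (M : V → V → ℝ) (a b c : V) : xi M b c a = xi M a b c := by
  rw [xi, xi]
  ring

theorem xi_23 (h : Sk M) (a b c : V) : xi M a c b = - xi M a b c := by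
  rw [← xi_rot M a c b, ← xi_rot M a b c, xi_12 h b c a]

theorem gg_eq (h : Sk M) (a b c d : V) : GG M a b c d = ∑ e, xi M a b e * xi M c d e := by
  rw [GG, ka, Finset.mul_sum]
  refine Finset.sum_congr rfl fun e _ => ?_
  rw [xi, xi, h.skew e a, h.skew e c]
  ring

theorem gg_12 (h : Sk M) (a b c d : V) : GG M b a c d = - GG M a b c d := by
  rw [GG, GG, ka_12, h.skew b a]
  ring

theorem gg_34 (h : Sk M) (a b c d : V) : GG M a b d c = - GG M a b c d := by
  rw [GG, GG, ka_34, h.skew d c]
  ring

theorem gg_swap (M : V → V → ℝ) (a b c d : V) : GG M c d a b = GG M a b c d := by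
  rw [GG, GG, ← ka_23 M c d a b, ← ka_12 M c a d b, ← ka_34 M a c d b, ← ka_23 M a c b d]
  ring

namespace Small

variable {E : ℝ}

theorem N_ge (h : Small M E) : (40000 : ℝ) ≤ Fintype.card V := by
  have h1 := h.one
  have h2 := h.big
  nlinarith

theorem E_sq_le (h : Small M E) : E ^ 2 ≤ Fintype.card V := by
  have h2 := h.big
  nlinarith [sq_nonneg E]

theorem E_le (h : Small M E) : E ≤ Fintype.card V := by
  have h1 := h.one
  have h2 := h.E_sq_le
  nlinarith

theorem ta_self_le (h : Small M E) (a b : V) : |ta M a a b| ≤ 2 * E := by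
  rw [ta_self h.sk]
  have h1 := h.r b
  have h2 := h.sk.abs_le b a
  have h3 := h.one
  exact (abs_sub _ _).trans (by linarith)

theorem ka_self_le (h : Small M E) (a c d : V) (hcd : c ≠ d) : |ka M a a c d| ≤ 2 * E := by
  rw [ka_self h.sk]
  have h1 := h.p c d hcd
  have h2 := abs_mul_le_one (h.sk.abs_le c a) (h.sk.abs_le d a)
  have h3 := h.one
  exact (abs_sub _ _).trans (by linarith)

end Small

end Pool.Agent.Work.MP_40b2ba_co
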