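import Pool.Agent.Work.MP_40b2ba_co.Basic

set_option autoImplicit false
set_option linter.unusedSectionVars false

/-!
# SlotUp (size S-M): passing to longer transitive lists

`slot_step`: choose any `v` in the slot `S`, `l' = l.take i ++ v :: l.drop i`.  It is transitive.  `S \ {v}` is the union of
`{z ∈ S | R z v} = slotL R l' i` and `{z ∈ S | R v z} = slotL R l' (i+1)` (tournament; `v` itself is in neither), so one of them has at least
`(#S - 1) / 2` members.
`slot_up`: if all slots of all transitive lists of length `k+1` have at most `B` members then all slots of all transitive lists of length `k`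
have at most `2 B + 1` members (empty slots trivially).
-/

namespace Pool.Agent.Work.MP_40b2ba_co

variable {V : Type*} [Fintype V] {R : V → V → Prop}

theorem slot_step (hR : IsTour R) (l : List V) (hl : l.Pairwise R) (i : ℕ) (hi : i ≤ l.length)
    (hne : (slotL R l i).Nonempty) :
    ∃ l' : List V, l'.Pairwise R ∧ l'.length = l.length + 1 ∧ ∃ i' ≤ l'.length,
      (slotL R l i).ncard ≤ 2 * (slotL R l' i').ncard + 1 := by
  obtain ⟨v, hv1, hv2⟩ := hne
  have hlen : (l.take i).length = i := by
    rw [List.length_take]
    omega
  have hlen' : (l.take i ++ v :: l.drop i).length = l.length + 1 := by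
    rw [List.length_append, List.length_cons, hlen, List.length_drop]
    omega
  have hpw : (l.take i ++ v :: l.drop i).Pairwise R := by
    have h0 : (l.take i ++ l.drop i).Pairwise R := by rw [List.take_append_drop]; exact hl
    rw [List.pairwise_append] at h0 ⊢
    refine ⟨h0.1, List.pairwise_cons.2 ⟨hv2, h0.2.1⟩, fun a ha b hb => ?_⟩
    rcases List.mem_cons.1 hb with rfl | hb
    · exact hv1 a ha
    · exact h0.2.2 a ha b hb
  have ht1 : (l.take i ++ v :: l.drop i).take i = l.take i := by
    rw [List.take_append_of_le_length (by omega), List.take_of_length_le (by omega)]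
  have hd1 : (l.take i ++ v :: l.drop i).drop i = v :: l.drop i := by
    rw [List.drop_append_of_le_length (by omega), List.drop_of_length_le (by omega),
      List.nil_append]
  have ht2 : (l.take i ++ v :: l.drop i).take (i + 1) = l.take i ++ [v] := by
    have h1 : l.take i ++ v :: l.drop i = (l.take i ++ [v]) ++ l.drop i := by simp
    have h2 : (l.take i ++ [v]).length = i + 1 := by
      rw [List.length_append, hlen]
      rfl
    rw [h1, List.take_append_of_le_length (by omega), List.take_of_length_le (by omega)]
  have hd2 : (l.take i ++ v :: l.drop i).drop (i + 1) = l.drop i := by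
    have h1 : l.take i ++ v :: l.drop i = (l.take i ++ [v]) ++ l.drop i := by simp
    have h2 : (l.take i ++ [v]).length = i + 1 := by
      rw [List.length_append, hlen]
      rfl
    rw [h1, List.drop_append_of_le_length (by omega), List.drop_of_length_le (by omega),
      List.nil_append]
  have hsub : slotL R l i ⊆ slotL R (l.take i ++ v :: l.drop i) i ∪
      slotL R (l.take i ++ v :: l.drop i) (i + 1) ∪ {v} := by
    rintro z ⟨hz1, hz2⟩
    by_cases hzv : z = v
    · right
      exact hzv
    · left
      rcases hR.2 z v hzv with ⟨h, _⟩ | ⟨h, _⟩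
      · left
        refine ⟨by rw [ht1]; exact hz1, ?_⟩
        rw [hd1]
        intro a ha
        rcases List.mem_cons.1 ha with rfl | ha
        · exact h
        · exact hz2 a ha
      · right
        refine ⟨?_, by rw [hd2]; exact hz2⟩
        rw [ht2]
        intro a ha
        rcases List.mem_append.1 ha with ha | ha
        · exact hz1 a ha
        · rw [List.mem_singleton] at ha
          rw [ha]
          exact h
  have hcard : (slotL R l i).ncard ≤ (slotL R (l.take i ++ v :: l.drop i) i).ncard +
      (slotL R (l.take i ++ v :: l.drop i) (i + 1)).ncard + 1 := by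
    refine (Set.ncard_le_ncard hsub (Set.toFinite _)).trans ?_
    refine (Set.ncard_union_le _ _).trans ?_
    rw [Set.ncard_singleton]
    exact Nat.add_le_add_right (Set.ncard_union_le _ _) 1
  rcases le_total (slotL R (l.take i ++ v :: l.drop i) i).ncard
    (slotL R (l.take i ++ v :: l.drop i) (i + 1)).ncard with h | h
  · exact ⟨_, hpw, hlen', i + 1, by omega, by omega⟩
  · exact ⟨_, hpw, hlen', i, by omega, by omega⟩

theorem slot_up (hR : IsTour R) (k : ℕ) (B : ℝ) (hB : 0 ≤ B)
    (h : ∀ l : List V, l.Pairwise R → l.length = k + 1 → ∀ i ≤ l.length, ((slotL R l i).ncard : ℝ) ≤ B)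
    (l : List V) (hl : l.Pairwise R) (hk : l.length = k) (i : ℕ) (hi : i ≤ l.length) :
    ((slotL R l i).ncard : ℝ) ≤ 2 * B + 1 := by
  rcases Set.eq_empty_or_nonempty (slotL R l i) with h0 | h0
  · rw [h0, Set.ncard_empty, Nat.cast_zero]
    linarith
  · obtain ⟨l', h1, h2, i', h3, h4⟩ := slot_step hR l hl i hi h0
    have h5 := h l' h1 (by omega) i' h3
    have h6 : ((slotL R l i).ncard : ℝ) ≤ 2 * ((slotL R l' i').ncard : ℝ) + 1 := by exact_mod_cast h4
    linarith

end Pool.Agent.Work.MP_40b2ba_co
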