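import Pool.Agent.Work.MP_40b2ba_co.Mat
import Pool.Agent.Work.MP_40b2ba_co.SlotUp

set_option autoImplicit false
set_option linter.unusedSectionVars false
set_option linter.unusedSimpArgs false

/-!
# Bounds (size M): small slots give `Small`

Let all slots of transitive lists of length 4 have at most `N/16 + D` members, `1 ≤ D`.  By `slot_up`: length 3: `N/8 + 2D + 1`, length 2:
`N/4 + 4D + 3`, length 1: `N/2 + 8D + 7`.  With `slot_sum` for `l = [a]`, `[a,b]`, `[a,b,c]`, `[a,b,c,d]` and the last two slots (`i = k` and `i = k-1`, which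
differ by the sign of the last entry) and `sum_prod` (put `0` for the missing variables):
* `N ± r_a ≤ 2 (N/2 + 8D + 7) + 1`, so `|rr a| ≤ 16 D + 15 ≤ 31 D`;
* `R a b`: `N + r_a ± r_b ± p ≤ 4 (N/4 + 4D + 3) + 4`, so `|pp a b| ≤ 16 D + 16 + 62 D ≤ 94 D`; `pp` is symmetric;
* transitive `[a,b,c]`: `± ta ≤ 8 (2D + 1) + 12 + 3 * 31 D + 3 * 94 D ≤ 411 D`; for any transitively oriented triple use the symmetry of `ta`
  (`ta_12`, `ta_23`): six orders;
* transitive `[a,b,c,d]`: `± ka ≤ 16 D + 32 + 4 * 31 D + 6 * 94 D + 4 * 411 D ≤ 2380 D`.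
So `Small (mat R) (2400 D)` as soon as `40000 * (2400 D)² ≤ N`.
-/

namespace Pool.Agent.Work.MP_40b2ba_co

variable {V : Type*} [Fintype V] {R : V → V → Prop}

theorem small_of_slots (hR : IsTour R) (D : ℝ) (hD : 1 ≤ D)
    (hN : 40000 * (2400 * D) ^ 2 ≤ Fintype.card V)
    (h : ∀ l : List V, l.Pairwise R → l.length = 4 → ∀ i ≤ l.length,
      ((slotL R l i).ncard : ℝ) ≤ Fintype.card V / 16 + D) : Small (mat R) (2400 * D) := by
  set N : ℝ := (Fintype.card V : ℝ) with hNdef
  have hN0 : 0 ≤ N := by rw [hNdef]; positivity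
  have S3 : ∀ l : List V, l.Pairwise R → l.length = 3 → ∀ i ≤ l.length,
      ((slotL R l i).ncard : ℝ) ≤ N / 8 + 2 * D + 1 := by
    intro l hl hk i hi
    have := slot_up hR 3 (N / 16 + D) (by positivity) h l hl hk i hi
    linarith
  have S2 : ∀ l : List V, l.Pairwise R → l.length = 2 → ∀ i ≤ l.length,
      ((slotL R l i).ncard : ℝ) ≤ N / 4 + 4 * D + 3 := by
    intro l hl hk i hi
    have := slot_up hR 2 (N / 8 + 2 * D + 1) (by positivity) S3 l hl hk i hi
    linarith
  have S1 : ∀ l : List V, l.Pairwise R → l.length = 1 → ∀ i ≤ l.length,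
      ((slotL R l i).ncard : ℝ) ≤ N / 2 + 8 * D + 7 := by
    intro l hl hk i hi
    have := slot_up hR 1 (N / 4 + 4 * D + 3) (by positivity) S2 l hl hk i hi
    linarith
  -- length one
  have h1 : ∀ a, |rr (mat R) a| ≤ 31 * D := by
    intro a
    have e1 := slot_sum hR [a] (by simp) 1 (by simp)
    have e0 := slot_sum hR [a] (by simp) 0 (by simp)
    have b1 := S1 [a] (by simp) (by simp) 1 (by simp)
    have b0 := S1 [a] (by simp) (by simp) 0 (by simp)
    have q1 := sum_prod (mat R) a a a a 1 0 0 0
    have q0 := sum_prod (mat R) a a a a (-1) 0 0 0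
    have r1 : ∑ z, ((([a] : List V).take 1).map fun a => 1 + mat R a z).prod *
        ((([a] : List V).drop 1).map fun a => 1 - mat R a z).prod =
        ∑ z, (1 + (1 : ℝ) * mat R a z) * (1 + (0 : ℝ) * mat R a z) * (1 + (0 : ℝ) * mat R a z) *
          (1 + (0 : ℝ) * mat R a z) := by
      refine Finset.sum_congr rfl fun z _ => ?_
      simp only [List.take_succ_cons, List.take_zero, List.take_nil, List.drop_succ_cons, List.drop_zero,
        List.drop_nil, List.map_cons, List.map_nil, List.prod_cons, List.prod_nil]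
      ring
    have r0 : ∑ z, ((([a] : List V).take 0).map fun a => 1 + mat R a z).prod *
        ((([a] : List V).drop 0).map fun a => 1 - mat R a z).prod =
        ∑ z, (1 + (-1 : ℝ) * mat R a z) * (1 + (0 : ℝ) * mat R a z) * (1 + (0 : ℝ) * mat R a z) *
          (1 + (0 : ℝ) * mat R a z) := by
      refine Finset.sum_congr rfl fun z _ => ?_
      simp only [List.take_succ_cons, List.take_zero, List.take_nil, List.drop_succ_cons, List.drop_zero,
        List.drop_nil, List.map_cons, List.map_nil, List.prod_cons, List.prod_nil]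
      ring
    rw [r1, q1, ← hNdef] at e1
    rw [r0, q0, ← hNdef] at e0
    simp only [List.length_cons, List.length_nil, zero_add, pow_one, Nat.cast_one, le_refl,
      tsub_eq_zero_of_le, pow_zero] at e1 e0
    rw [abs_le]
    constructor <;> linarith
  -- length two
  have h2 : ∀ a b, R a b → |pp (mat R) a b| ≤ 94 * D := by
    intro a b hab
    have hl : ([a, b] : List V).Pairwise R := by simp [hab]
    have e2 := slot_sum hR [a, b] hl 2 (by simp)
    have e1 := slot_sum hR [a, b] hl 1 (by simp)
    have b2 := S2 [a, b] hl (by simp) 2 (by simp)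
    have b1 := S2 [a, b] hl (by simp) 1 (by simp)
    have q2 := sum_prod (mat R) a b a a 1 1 0 0
    have q1 := sum_prod (mat R) a b a a 1 (-1) 0 0
    have r2 : ∑ z, ((([a, b] : List V).take 2).map fun a => 1 + mat R a z).prod *
        ((([a, b] : List V).drop 2).map fun a => 1 - mat R a z).prod =
        ∑ z, (1 + (1 : ℝ) * mat R a z) * (1 + (1 : ℝ) * mat R b z) * (1 + (0 : ℝ) * mat R a z) *
          (1 + (0 : ℝ) * mat R a z) := by
      refine Finset.sum_congr rfl fun z _ => ?_
      simp only [List.take_succ_cons, List.take_zero, List.take_nil, List.drop_succ_cons, List.drop_zero,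
        List.drop_nil, List.map_cons, List.map_nil, List.prod_cons, List.prod_nil]
      ring
    have r1 : ∑ z, ((([a, b] : List V).take 1).map fun a => 1 + mat R a z).prod *
        ((([a, b] : List V).drop 1).map fun a => 1 - mat R a z).prod =
        ∑ z, (1 + (1 : ℝ) * mat R a z) * (1 + (-1 : ℝ) * mat R b z) * (1 + (0 : ℝ) * mat R a z) *
          (1 + (0 : ℝ) * mat R a z) := by
      refine Finset.sum_congr rfl fun z _ => ?_
      simp only [List.take_succ_cons, List.take_zero, List.take_nil, List.drop_succ_cons, List.drop_zero,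
        List.drop_nil, List.map_cons, List.map_nil, List.prod_cons, List.prod_nil]
      ring
    rw [r2, q2, ← hNdef] at e2
    rw [r1, q1, ← hNdef] at e1
    norm_num at e2 e1
    have ha := abs_le.1 (h1 a)
    have hb := abs_le.1 (h1 b)
    rw [abs_le]
    constructor <;> linarith
  have h2' : ∀ a b, a ≠ b → |pp (mat R) a b| ≤ 94 * D := by
    intro a b hab
    rcases hR.2 a b hab with h3 | h3
    · exact h2 a b h3.1
    · rw [pp_comm]
      exact h2 b a h3.1
  -- length three
  have h3 : ∀ a b c, R a b → R a c → R b c → |ta (mat R) a b c| ≤ 411 * D := by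
    intro a b c hab hac hbc
    have hl : ([a, b, c] : List V).Pairwise R := by simp [hab, hac, hbc]
    have e3 := slot_sum hR [a, b, c] hl 3 (by simp)
    have e2 := slot_sum hR [a, b, c] hl 2 (by simp)
    have b3 := S3 [a, b, c] hl (by simp) 3 (by simp)
    have b2 := S3 [a, b, c] hl (by simp) 2 (by simp)
    have q3 := sum_prod (mat R) a b c a 1 1 1 0
    have q2 := sum_prod (mat R) a b c a 1 1 (-1) 0
    have r3 : ∑ z, ((([a, b, c] : List V).take 3).map fun a => 1 + mat R a z).prod *
        ((([a, b, c] : List V).drop 3).map fun a => 1 - mat R a z).prod =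
        ∑ z, (1 + (1 : ℝ) * mat R a z) * (1 + (1 : ℝ) * mat R b z) * (1 + (1 : ℝ) * mat R c z) *
          (1 + (0 : ℝ) * mat R a z) := by
      refine Finset.sum_congr rfl fun z _ => ?_
      simp only [List.take_succ_cons, List.take_zero, List.take_nil, List.drop_succ_cons, List.drop_zero,
        List.drop_nil, List.map_cons, List.map_nil, List.prod_cons, List.prod_nil]
      ring
    have r2 : ∑ z, ((([a, b, c] : List V).take 2).map fun a => 1 + mat R a z).prod *
        ((([a, b, c] : List V).drop 2).map fun a => 1 - mat R a z).prod =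
        ∑ z, (1 + (1 : ℝ) * mat R a z) * (1 + (1 : ℝ) * mat R b z) * (1 + (-1 : ℝ) * mat R c z) *
          (1 + (0 : ℝ) * mat R a z) := by
      refine Finset.sum_congr rfl fun z _ => ?_
      simp only [List.take_succ_cons, List.take_zero, List.take_nil, List.drop_succ_cons, List.drop_zero,
        List.drop_nil, List.map_cons, List.map_nil, List.prod_cons, List.prod_nil]
      ring
    rw [r3, q3, ← hNdef] at e3
    rw [r2, q2, ← hNdef] at e2
    norm_num at e3 e2
    have ha := abs_le.1 (h1 a)
    have hb := abs_le.1 (h1 b)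
    have hc := abs_le.1 (h1 c)
    have pab := abs_le.1 (h2 a b hab)
    have pac := abs_le.1 (h2 a c hac)
    have pbc := abs_le.1 (h2 b c hbc)
    rw [abs_le]
    constructor <;> linarith
  -- length four
  have h4 : ∀ a b c d, R a b → R a c → R a d → R b c → R b d → R c d →
      |ka (mat R) a b c d| ≤ 2380 * D := by
    intro a b c d hab hac had hbc hbd hcd
    have hl : ([a, b, c, d] : List V).Pairwise R := by simp [hab, hac, had, hbc, hbd, hcd]
    have e4 := slot_sum hR [a, b, c, d] hl 4 (by simp)
    have e3 := slot_sum hR [a, b, c, d] hl 3 (by simp)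
    have b4 := h [a, b, c, d] hl (by simp) 4 (by simp)
    have b3 := h [a, b, c, d] hl (by simp) 3 (by simp)
    have q4 := sum_prod (mat R) a b c d 1 1 1 1
    have q3 := sum_prod (mat R) a b c d 1 1 1 (-1)
    have r4 : ∑ z, ((([a, b, c, d] : List V).take 4).map fun a => 1 + mat R a z).prod *
        ((([a, b, c, d] : List V).drop 4).map fun a => 1 - mat R a z).prod =
        ∑ z, (1 + (1 : ℝ) * mat R a z) * (1 + (1 : ℝ) * mat R b z) * (1 + (1 : ℝ) * mat R c z) *
          (1 + (1 : ℝ) * mat R d z) := by
      refine Finset.sum_congr rfl fun z _ => ?_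
      simp only [List.take_succ_cons, List.take_zero, List.take_nil, List.drop_succ_cons, List.drop_zero,
        List.drop_nil, List.map_cons, List.map_nil, List.prod_cons, List.prod_nil]
      ring
    have r3 : ∑ z, ((([a, b, c, d] : List V).take 3).map fun a => 1 + mat R a z).prod *
        ((([a, b, c, d] : List V).drop 3).map fun a => 1 - mat R a z).prod =
        ∑ z, (1 + (1 : ℝ) * mat R a z) * (1 + (1 : ℝ) * mat R b z) * (1 + (1 : ℝ) * mat R c z) *
          (1 + (-1 : ℝ) * mat R d z) := by
      refine Finset.sum_congr rfl fun z _ => ?_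
      simp only [List.take_succ_cons, List.take_zero, List.take_nil, List.drop_succ_cons, List.drop_zero,
        List.drop_nil, List.map_cons, List.map_nil, List.prod_cons, List.prod_nil]
      ring
    rw [r4, q4, ← hNdef] at e4
    rw [r3, q3, ← hNdef] at e3
    norm_num at e4 e3
    have ha := abs_le.1 (h1 a)
    have hb := abs_le.1 (h1 b)
    have hc := abs_le.1 (h1 c)
    have hd := abs_le.1 (h1 d)
    have pab := abs_le.1 (h2 a b hab)
    have pac := abs_le.1 (h2 a c hac)
    have pad := abs_le.1 (h2 a d had)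
    have pbc := abs_le.1 (h2 b c hbc)
    have pbd := abs_le.1 (h2 b d hbd)
    have pcd := abs_le.1 (h2 c d hcd)
    have tabc := abs_le.1 (h3 a b c hab hac hbc)
    have tabd := abs_le.1 (h3 a b d hab had hbd)
    have tacd := abs_le.1 (h3 a c d hac had hcd)
    have tbcd := abs_le.1 (h3 b c d hbc hbd hcd)
    rw [abs_le]
    constructor <;> linarith
  refine ⟨mat_sk hR, by linarith, hN, fun a => (h1 a).trans (by linarith),
    fun a b hab => (h2' a b hab).trans (by linarith), ?_, ?_⟩
  · intro a b c hab hac hbc hne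
    refine le_trans ?_ (show 411 * D ≤ 2400 * D by linarith)
    rcases hR.2 a b hab with hab | hab <;> rcases hR.2 b c hbc with hbc | hbc <;>
      rcases hR.2 a c hac with hac | hac
    · exact h3 a b c hab.1 hac.1 hbc.1
    · exfalso
      apply hne
      rw [(mat_eq_one hR).2 hab.1, (mat_eq_one hR).2 hbc.1, (mat_eq_one hR).2 hac.1]
      exact ⟨rfl, rfl⟩
    · rw [← ta_23]
      exact h3 a c b hac.1 hab.1 hbc.1
    · rw [← ta_23, ← ta_12]
      exact h3 c a b hac.1 hbc.1 hab.1
    · rw [← ta_12]
      exact h3 b a c hab.1 hbc.1 hac.1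
    · rw [← ta_12, ← ta_23]
      exact h3 b c a hbc.1 hab.1 hac.1
    · exfalso
      apply hne
      rw [(mat_eq_neg hR).2 hab.1, (mat_eq_neg hR).2 hbc.1, (mat_eq_neg hR).2 hac.1]
      exact ⟨rfl, rfl⟩
    · rw [← ta_12, ← ta_23, ← ta_12]
      exact h3 c b a hbc.1 hac.1 hab.1
  · intro a b c d hab hac had hbc hbd hcd
    rw [mat_eq_one hR] at hab hac had hbc hbd hcd
    exact (h4 a b c d hab hac had hbc hbd hcd).trans (by linarith)

end Pool.Agent.Work.MP_40b2ba_co
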