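import Pool.Agent.Work.MP_40b2ba_co.Basic

set_option autoImplicit false
set_option linter.unusedSectionVars false

/-!
# Exact (size S): an exact equality

`L2 a b c d = - L1 b a c d` (`gg_12`), `L3 a c b d = ∑_x M b x GG a c x d = ∑_x M b x GG x d a c = L1 b d a c` (`gg_swap`),
`L1 a b d c = - L1 a b c d` (`gg_34`).  So `ip L2 (sw L3) = ∑ L2 a b c d * L3 a c b d = - ∑ L1 b a c d * L1 b d a c`.  Rename
`(b,a,c,d) := (a,x,d',c')`.. : `- ∑ L1 a x c d * L1 a d x c = ∑ L1 a x d c * L1 a d x c = ip L1 (sw L1)`.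
-/

namespace Pool.Agent.Work.MP_40b2ba_co

variable {V : Type*} [Fintype V] {M : V → V → ℝ}

theorem L2_eq (h : Sk M) (a b c d : V) : L2 M a b c d = - L1 M b a c d := by
  rw [L2, L1, ← Finset.sum_neg_distrib]
  refine Finset.sum_congr rfl fun x _ => ?_
  rw [gg_12 h x a c d]
  ring

theorem L3_eq (M : V → V → ℝ) (a b c d : V) : L3 M a b c d = L1 M c d a b := by
  rw [L3, L1]
  refine Finset.sum_congr rfl fun x _ => ?_
  rw [gg_swap M x d a b]

theorem L1_34 (h : Sk M) (a b c d : V) : L1 M a b d c = - L1 M a b c d := by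
  rw [L1, L1, ← Finset.sum_neg_distrib]
  refine Finset.sum_congr rfl fun x _ => ?_
  rw [gg_34 h x b c d]
  ring

theorem ip_L (h : Sk M) : ip (L1 M) (sw (L1 M)) = ip (L2 M) (sw (L3 M)) := by
  have e1 : ip (L2 M) (sw (L3 M)) = ∑ a, ∑ b, ∑ c, ∑ d, L1 M b a d c * L1 M b d a c := by
    refine Finset.sum_congr rfl fun a _ => Finset.sum_congr rfl fun b _ =>
      Finset.sum_congr rfl fun c _ => Finset.sum_congr rfl fun d _ => ?_
    rw [sw, L2_eq h, L3_eq, L1_34 h b a c d]
  rw [e1, Finset.sum_comm]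
  refine Finset.sum_congr rfl fun b _ => Finset.sum_congr rfl fun a _ => ?_
  rw [Finset.sum_comm]
  rfl

end Pool.Agent.Work.MP_40b2ba_co
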