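import Pool.Agent.Work.MP_40b2ba_co.Basic

set_option autoImplicit false
set_option linter.unusedSectionVars false

/-!
# LId (size S-M): `L2 - L1` and `L3 + L1`

`mx1`: `∑_x M a x * xi x b c = - M b c * ta a b c` (`xi x b c = M x b M b c M c x`, `M x b = - M b x`); `mx2`, `mx3` the same for the
other variables.  With `gg_eq`: `L1 a b c d = ∑_e (∑_x M a x xi x b e) xi c d e = - ∑_e M b e ta a b e xi c d e`,
`L2 a b c d = - ∑_e M e a ta a b e xi c d e`, `L3 a b c d = ∑_e xi a b e (∑_x M c x xi x d e) = - ∑_e xi a b e M d e ta c d e`.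
Key identity (`key`): `∑_e M a b ta a b e xi c d e = - ∑_e xi a b e M c d ta c d e`: by `mx3` the left side is
`- ∑_e (∑_x M e x xi a b x) xi c d e = - ∑_x xi a b x (∑_e M e x xi c d e) = ∑_x xi a b x (∑_e M x e xi c d e) = - ∑_x xi a b x M c d ta c d x`.
`L3_add`: `L3 + L1 = - ∑_e xi a b e M d e ta c d e - ∑_e M b e ta a b e xi c d e`; add `0 = ∑_e M a b ta a b e xi c d e + ∑_e xi a b e M c d ta c d e`.
-/

namespace Pool.Agent.Work.MP_40b2ba_co

variable {V : Type*} [Fintype V] {M : V → V → ℝ}

theorem mx1 (h : Sk M) (a b c : V) : ∑ x, M a x * xi M x b c = - (M b c * ta M a b c) := by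
  rw [ta, Finset.mul_sum, ← Finset.sum_neg_distrib]
  refine Finset.sum_congr rfl fun x _ => ?_
  rw [xi, h.skew x b]
  ring

theorem mx2 (h : Sk M) (a b c : V) : ∑ x, M b x * xi M a x c = - (M c a * ta M a b c) := by
  rw [ta, Finset.mul_sum, ← Finset.sum_neg_distrib]
  refine Finset.sum_congr rfl fun x _ => ?_
  rw [xi, h.skew x c]
  ring

theorem mx3 (h : Sk M) (a b c : V) : ∑ x, M c x * xi M a b x = - (M a b * ta M a b c) := by
  rw [ta, Finset.mul_sum, ← Finset.sum_neg_distrib]
  refine Finset.sum_congr rfl fun x _ => ?_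
  rw [xi, h.skew x a]
  ring

theorem key (h : Sk M) (a b c d : V) :
    ∑ e, M a b * ta M a b e * xi M c d e = - ∑ e, xi M a b e * (M c d * ta M c d e) := by
  have h1 : ∀ e, M a b * ta M a b e * xi M c d e = - ∑ x, M e x * xi M a b x * xi M c d e := by
    intro e
    rw [← Finset.sum_mul, mx3 h a b e]
    ring
  have h2 : ∀ e, xi M a b e * (M c d * ta M c d e) = - ∑ x, xi M a b e * (M e x * xi M c d x) := by
    intro e
    rw [← Finset.mul_sum, mx3 h c d e]
    ring
  simp only [h1, h2, Finset.sum_neg_distrib]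
  rw [Finset.sum_comm, neg_neg, ← Finset.sum_neg_distrib]
  refine Finset.sum_congr rfl fun e _ => ?_
  rw [← Finset.sum_neg_distrib]
  refine Finset.sum_congr rfl fun x _ => ?_
  rw [h.skew x e]
  ring

private theorem lid_L1 (h : Sk M) (a b c d : V) : L1 M a b c d =
    - ∑ e, M b e * ta M a b e * xi M c d e := by
  have h1 : ∀ e, - (M b e * ta M a b e * xi M c d e) = ∑ x, M a x * (xi M x b e * xi M c d e) := by
    intro e
    have h2 : ∑ x, M a x * (xi M x b e * xi M c d e) = (∑ x, M a x * xi M x b e) * xi M c d e := by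
      rw [Finset.sum_mul]
      exact Finset.sum_congr rfl fun x _ => by ring
    rw [h2, mx1 h a b e]
    ring
  rw [← Finset.sum_neg_distrib, Finset.sum_congr rfl fun e _ => h1 e, Finset.sum_comm, L1]
  refine Finset.sum_congr rfl fun x _ => ?_
  rw [gg_eq h, Finset.mul_sum]

private theorem lid_L2 (h : Sk M) (a b c d : V) : L2 M a b c d =
    - ∑ e, M e a * ta M a b e * xi M c d e := by
  have h1 : ∀ e, - (M e a * ta M a b e * xi M c d e) = ∑ x, M b x * (xi M a x e * xi M c d e) := by
    intro e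
    have h2 : ∑ x, M b x * (xi M a x e * xi M c d e) = (∑ x, M b x * xi M a x e) * xi M c d e := by
      rw [Finset.sum_mul]
      exact Finset.sum_congr rfl fun x _ => by ring
    rw [h2, mx2 h a b e]
    ring
  rw [← Finset.sum_neg_distrib, Finset.sum_congr rfl fun e _ => h1 e, Finset.sum_comm, L2]
  refine Finset.sum_congr rfl fun x _ => ?_
  rw [gg_eq h, Finset.mul_sum]

private theorem lid_L3 (h : Sk M) (a b c d : V) : L3 M a b c d =
    - ∑ e, xi M a b e * (M d e * ta M c d e) := by
  have h1 : ∀ e, - (xi M a b e * (M d e * ta M c d e)) = ∑ x, M c x * (xi M a b e * xi M x d e) := by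
    intro e
    have h2 : ∑ x, M c x * (xi M a b e * xi M x d e) = xi M a b e * ∑ x, M c x * xi M x d e := by
      rw [Finset.mul_sum]
      exact Finset.sum_congr rfl fun x _ => by ring
    rw [h2, mx1 h c d e]
    ring
  rw [← Finset.sum_neg_distrib, Finset.sum_congr rfl fun e _ => h1 e, Finset.sum_comm, L3]
  refine Finset.sum_congr rfl fun x _ => ?_
  rw [gg_eq h, Finset.mul_sum]

theorem L2_sub (h : Sk M) (a b c d : V) : L2 M a b c d - L1 M a b c d =
    ∑ e, ((M b e - M e a) * ta M a b e) * xi M c d e := by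
  rw [lid_L1 h, lid_L2 h, sub_neg_eq_add, ← Finset.sum_neg_distrib, ← Finset.sum_add_distrib]
  exact Finset.sum_congr rfl fun e _ => by ring

theorem L3_add (h : Sk M) (a b c d : V) : L3 M a b c d + L1 M a b c d =
    ∑ e, ((M a b - M b e) * ta M a b e) * xi M c d e + ∑ e, ((M c d - M d e) * ta M c d e) * xi M a b e := by
  have hk := key h a b c d
  have h1 : ∑ e, ((M a b - M b e) * ta M a b e) * xi M c d e =
      ∑ e, M a b * ta M a b e * xi M c d e - ∑ e, M b e * ta M a b e * xi M c d e := by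
    rw [← Finset.sum_sub_distrib]
    exact Finset.sum_congr rfl fun e _ => by ring
  have h2 : ∑ e, ((M c d - M d e) * ta M c d e) * xi M a b e =
      ∑ e, xi M a b e * (M c d * ta M c d e) - ∑ e, xi M a b e * (M d e * ta M c d e) := by
    rw [← Finset.sum_sub_distrib]
    exact Finset.sum_congr rfl fun e _ => by ring
  rw [lid_L1 h, lid_L3 h, h1, h2, hk]
  ring

end Pool.Agent.Work.MP_40b2ba_co
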