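import Pool.Agent.Work.MP_40b2ba_co.Gram
import Pool.Agent.Work.MP_40b2ba_co.LId

set_option autoImplicit false
set_option linter.unusedSectionVars false

/-!
# LNorm (size S-M): norms of `L2 - L1` and `L3 + L1`

Pointwise (`de1`, `de2`): `((M b e - M e a) * ta a b e)² ≤ 16 E²` and `((M a b - M b e) * ta a b e)² ≤ 16 E²`: for distinct `a b e` either the triple is
cyclic (`M a b = M b e = M e a`), then the first factor is `0`, or `|ta| ≤ E` (`Small.t`) and the first factor is at most `2`; if two of `a b e` are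
equal then `|ta| ≤ 2 E` (`Small.ta_self_le` with `ta_12`, `ta_23`) and the first factor is at most `2`.
`f2_le`: for fixed `a b` apply `gram_le` to `x e = (M b e - M e a) * ta a b e`: the total is at most `3 N² * N³ * 16 E² = 48 N^5 E²`, and
`40000 E² ≤ N`: `48 N^5 E² ≤ 0.0012 N^6`.  `f3_le`: `(x + y)² ≤ 2 x² + 2 y²`, both sums are at most `48 N^5 E²` (for the second one fix `c d`, sum
over `a b`): total `192 N^5 E² ≤ 0.0048 N^6`.
-/

namespace Pool.Agent.Work.MP_40b2ba_co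

variable {V : Type*} [Fintype V] {M : V → V → ℝ} {E : ℝ}

private theorem ta_any (h : Small M E) (a b e : V) (hd : a = b ∨ a = e ∨ b = e) :
    |ta M a b e| ≤ 2 * E := by
  rcases hd with rfl | rfl | rfl
  · exact h.ta_self_le a e
  · rw [ta_23 M a a b]
    exact h.ta_self_le a b
  · rw [ta_12 M b a b, ta_23 M b b a]
    exact h.ta_self_le b a

private theorem fac_le {u v : ℝ} (hu : |u| ≤ 1) (hv : |v| ≤ 1) : (u - v) ^ 2 ≤ 4 := by
  have h1 := abs_le.1 hu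
  have h2 := abs_le.1 hv
  nlinarith

private theorem de_aux {s τ E : ℝ} (hs : s ^ 2 ≤ 4) (hτ : |τ| ≤ 2 * E) :
    (s * τ) ^ 2 ≤ 16 * E ^ 2 := by
  have h1 : τ ^ 2 ≤ (2 * E) ^ 2 := by
    rw [← sq_abs]
    exact pow_le_pow_left₀ (abs_nonneg _) hτ 2
  have h2 : (s * τ) ^ 2 = s ^ 2 * τ ^ 2 := by ring
  rw [h2]
  nlinarith [sq_nonneg τ, sq_nonneg s]

private theorem de1 (h : Small M E) (a b e : V) :
    ((M b e - M e a) * ta M a b e) ^ 2 ≤ 16 * E ^ 2 := by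
  have hE := h.one
  by_cases hd : a = b ∨ a = e ∨ b = e
  · exact de_aux (fac_le (h.sk.abs_le _ _) (h.sk.abs_le _ _)) (ta_any h a b e hd)
  · push Not at hd
    by_cases hc : M a b = M b e ∧ M b e = M e a
    · rw [hc.2, sub_self, zero_mul]
      nlinarith [sq_nonneg E]
    · refine de_aux (fac_le (h.sk.abs_le _ _) (h.sk.abs_le _ _)) ?_
      have := h.t a b e hd.1 hd.2.1 hd.2.2 hc
      linarith

private theorem de2 (h : Small M E) (a b e : V) :
    ((M a b - M b e) * ta M a b e) ^ 2 ≤ 16 * E ^ 2 := by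
  have hE := h.one
  by_cases hd : a = b ∨ a = e ∨ b = e
  · exact de_aux (fac_le (h.sk.abs_le _ _) (h.sk.abs_le _ _)) (ta_any h a b e hd)
  · push Not at hd
    by_cases hc : M a b = M b e ∧ M b e = M e a
    · rw [hc.1, sub_self, zero_mul]
      nlinarith [sq_nonneg E]
    · refine de_aux (fac_le (h.sk.abs_le _ _) (h.sk.abs_le _ _)) ?_
      have := h.t a b e hd.1 hd.2.1 hd.2.2 hc
      linarith

private theorem gram_tot (h : Small M E) (x : V → V → V → ℝ) (hx : ∀ a b e, x a b e ^ 2 ≤ 16 * E ^ 2) :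
    ∑ a, ∑ b, ∑ c, ∑ d, (∑ e, x a b e * xi M c d e) ^ 2 ≤
      48 * (Fintype.card V : ℝ) ^ 5 * E ^ 2 := by
  have h1 : ∀ a b : V, ∑ c, ∑ d, (∑ e, x a b e * xi M c d e) ^ 2 ≤
      48 * (Fintype.card V : ℝ) ^ 3 * E ^ 2 := by
    intro a b
    refine (gram_le h (x a b)).trans ?_
    have h2 : ∑ e, x a b e ^ 2 ≤ Fintype.card V * (16 * E ^ 2) := by
      refine (Finset.sum_le_sum fun e _ => hx a b e).trans ?_
      rw [Finset.sum_const, Finset.card_univ, nsmul_eq_mul]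
    calc 3 * (Fintype.card V : ℝ) ^ 2 * ∑ e, x a b e ^ 2
        ≤ 3 * (Fintype.card V : ℝ) ^ 2 * (Fintype.card V * (16 * E ^ 2)) :=
          mul_le_mul_of_nonneg_left h2 (by positivity)
      _ = 48 * (Fintype.card V : ℝ) ^ 3 * E ^ 2 := by ring
  calc ∑ a, ∑ b, ∑ c, ∑ d, (∑ e, x a b e * xi M c d e) ^ 2
      ≤ ∑ _a : V, ∑ _b : V, 48 * (Fintype.card V : ℝ) ^ 3 * E ^ 2 :=
        Finset.sum_le_sum fun a _ => Finset.sum_le_sum fun b _ => h1 a b
    _ = 48 * (Fintype.card V : ℝ) ^ 5 * E ^ 2 := by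
      simp only [Finset.sum_const, Finset.card_univ, nsmul_eq_mul]
      ring

theorem f2_le (h : Small M E) : ∑ a, ∑ b, ∑ c, ∑ d, (L2 M a b c d - L1 M a b c d) ^ 2 ≤
    0.0012 * (Fintype.card V : ℝ) ^ 6 := by
  have h1 : ∑ a, ∑ b, ∑ c, ∑ d, (L2 M a b c d - L1 M a b c d) ^ 2 ≤
      48 * (Fintype.card V : ℝ) ^ 5 * E ^ 2 := by
    simp only [L2_sub h.sk]
    exact gram_tot h _ (fun a b e => de1 h a b e)
  refine h1.trans ?_
  have h2 := h.big
  have h3 : (0 : ℝ) ≤ (Fintype.card V : ℝ) ^ 5 := by positivity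
  have h4 : (Fintype.card V : ℝ) ^ 5 * (40000 * E ^ 2) ≤ (Fintype.card V : ℝ) ^ 5 * Fintype.card V :=
    mul_le_mul_of_nonneg_left h2 h3
  have h5 : (Fintype.card V : ℝ) ^ 6 = (Fintype.card V : ℝ) ^ 5 * Fintype.card V := by ring
  rw [h5]
  linarith

theorem f3_le (h : Small M E) : ∑ a, ∑ b, ∑ c, ∑ d, (L3 M a b c d + L1 M a b c d) ^ 2 ≤
    0.0048 * (Fintype.card V : ℝ) ^ 6 := by
  have h0 : ∀ a b c d : V, (L3 M a b c d + L1 M a b c d) ^ 2 ≤
      2 * (∑ e, ((M a b - M b e) * ta M a b e) * xi M c d e) ^ 2 +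
      2 * (∑ e, ((M c d - M d e) * ta M c d e) * xi M a b e) ^ 2 := by
    intro a b c d
    rw [L3_add h.sk]
    nlinarith [sq_nonneg ((∑ e, ((M a b - M b e) * ta M a b e) * xi M c d e) -
      ∑ e, ((M c d - M d e) * ta M c d e) * xi M a b e)]
  have h1 : ∑ a, ∑ b, ∑ c, ∑ d, (L3 M a b c d + L1 M a b c d) ^ 2 ≤
      2 * ∑ a, ∑ b, ∑ c, ∑ d, (∑ e, ((M a b - M b e) * ta M a b e) * xi M c d e) ^ 2 +
      2 * ∑ a, ∑ b, ∑ c, ∑ d, (∑ e, ((M c d - M d e) * ta M c d e) * xi M a b e) ^ 2 := by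
    simp only [Finset.mul_sum, ← Finset.sum_add_distrib]
    refine Finset.sum_le_sum fun a _ => Finset.sum_le_sum fun b _ => Finset.sum_le_sum fun c _ =>
      Finset.sum_le_sum fun d _ => ?_
    have := h0 a b c d
    simpa only [Finset.mul_sum] using this
  have h2 := gram_tot h _ (fun a b e => de2 h a b e)
  have h3 : ∑ a, ∑ b, ∑ c, ∑ d, (∑ e, ((M c d - M d e) * ta M c d e) * xi M a b e) ^ 2 ≤
      48 * (Fintype.card V : ℝ) ^ 5 * E ^ 2 := by
    refine le_trans (le_of_eq ?_) h2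
    calc ∑ a, ∑ b, ∑ c, ∑ d, (∑ e, ((M c d - M d e) * ta M c d e) * xi M a b e) ^ 2
        = ∑ a, ∑ c, ∑ b, ∑ d, (∑ e, ((M c d - M d e) * ta M c d e) * xi M a b e) ^ 2 :=
          Finset.sum_congr rfl fun a _ => Finset.sum_comm
      _ = ∑ c, ∑ a, ∑ b, ∑ d, (∑ e, ((M c d - M d e) * ta M c d e) * xi M a b e) ^ 2 :=
          Finset.sum_comm
      _ = ∑ c, ∑ a, ∑ d, ∑ b, (∑ e, ((M c d - M d e) * ta M c d e) * xi M a b e) ^ 2 :=
          Finset.sum_congr rfl fun c _ => Finset.sum_congr rfl fun a _ => Finset.sum_comm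
      _ = ∑ c, ∑ d, ∑ a, ∑ b, (∑ e, ((M c d - M d e) * ta M c d e) * xi M a b e) ^ 2 :=
          Finset.sum_congr rfl fun c _ => Finset.sum_comm
  refine h1.trans ?_
  have h4 := h.big
  have h5 : (0 : ℝ) ≤ (Fintype.card V : ℝ) ^ 5 := by positivity
  have h6 : (Fintype.card V : ℝ) ^ 5 * (40000 * E ^ 2) ≤ (Fintype.card V : ℝ) ^ 5 * Fintype.card V :=
    mul_le_mul_of_nonneg_left h4 h5
  have h7 : (Fintype.card V : ℝ) ^ 6 = (Fintype.card V : ℝ) ^ 5 * Fintype.card V := by ring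
  rw [h7]
  linarith

end Pool.Agent.Work.MP_40b2ba_co
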