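import Pool.Agent.Work.MP_40b2ba_co.Basic

set_option autoImplicit false
set_option linter.unusedSectionVars false

/-!
# SumSq (size S-M): sums of the squares of the correlations

`sum_ka_sq`: `∑ ka² = ∑_{z,w} (∑_a M a z M a w) (∑_b ..) (∑_c ..) (∑_d ..)`: expand the square of the sum over `z`, exchange the
sums (`Finset.sum_comm`, `Finset.sum_mul_sum`), and `∑_a M a z M a w = pp z w` (`pp_col`).  `sum_ta_sq`: the same with three factors.
Bounds: `pp z z = N - 1` (`pp_self`), `|pp z w| ≤ E` for `z ≠ w`, `E² ≤ N`, `1 ≤ E ≤ N` (`Small.E_sq_le`, `Small.E_le`):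
`N (N-1)^4 ≤ ∑ pp^4 ≤ N (N-1)^4 + N² E^4 ≤ 2 N^5`, `∑ pp^3 ≤ N (N-1)^3 + N² E³ ≤ 2 N^4`.
-/

namespace Pool.Agent.Work.MP_40b2ba_co

variable {V : Type*} [Fintype V] {M : V → V → ℝ} {E : ℝ}

private theorem out (F : V → V → V → ℝ) :
    ∑ d, ∑ z, ∑ w, F d z w = ∑ z, ∑ w, ∑ d, F d z w := by
  rw [Finset.sum_comm]
  exact Finset.sum_congr rfl fun z _ => Finset.sum_comm

private theorem pow4 (g : V → ℝ) : ∑ a, ∑ b, ∑ c, ∑ d, g a * g b * g c * g d = (∑ a, g a) ^ 4 := by
  have h1 : ∀ a b c, ∑ d, g a * g b * g c * g d = g a * g b * g c * ∑ d, g d := fun a b c =>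
    (Finset.mul_sum _ _ _).symm
  have h2 : ∀ a b, ∑ c, g a * g b * g c * ∑ d, g d = g a * g b * (∑ c, g c) * ∑ d, g d := fun a b => by
    rw [← Finset.sum_mul, ← Finset.mul_sum]
  have h3 : ∀ a, ∑ b, g a * g b * (∑ c, g c) * ∑ d, g d = g a * (∑ b, g b) * (∑ c, g c) * ∑ d, g d := fun a => by
    rw [← Finset.sum_mul, ← Finset.sum_mul, ← Finset.mul_sum]
  simp_rw [h1, h2, h3]
  rw [← Finset.sum_mul, ← Finset.sum_mul, ← Finset.sum_mul]
  ring

private theorem pow3 (g : V → ℝ) : ∑ a, ∑ b, ∑ c, g a * g b * g c = (∑ a, g a) ^ 3 := by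
  have h2 : ∀ a b, ∑ c, g a * g b * g c = g a * g b * ∑ c, g c := fun a b =>
    (Finset.mul_sum _ _ _).symm
  have h3 : ∀ a, ∑ b, g a * g b * ∑ c, g c = g a * (∑ b, g b) * ∑ c, g c := fun a => by
    rw [← Finset.sum_mul, ← Finset.mul_sum]
  simp_rw [h2, h3]
  rw [← Finset.sum_mul, ← Finset.sum_mul]
  ring

theorem sum_ka_sq (h : Sk M) :
    ∑ a, ∑ b, ∑ c, ∑ d, ka M a b c d ^ 2 = ∑ z, ∑ w, pp M z w ^ 4 := by
  have h0 : ∀ a b c d, ka M a b c d ^ 2 =
      ∑ z, ∑ w, (M a z * M a w) * (M b z * M b w) * (M c z * M c w) * (M d z * M d w) := by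
    intro a b c d
    rw [sq, ka, Finset.sum_mul_sum]
    exact Finset.sum_congr rfl fun z _ => Finset.sum_congr rfl fun w _ => by ring
  simp_rw [h0]
  rw [Finset.sum_congr rfl fun a _ => Finset.sum_congr rfl fun b _ => Finset.sum_congr rfl fun c _ =>
    out (fun d z w => (M a z * M a w) * (M b z * M b w) * (M c z * M c w) * (M d z * M d w))]
  rw [Finset.sum_congr rfl fun a _ => Finset.sum_congr rfl fun b _ =>
    out (fun c z w => ∑ d, (M a z * M a w) * (M b z * M b w) * (M c z * M c w) * (M d z * M d w))]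
  rw [Finset.sum_congr rfl fun a _ =>
    out (fun b z w => ∑ c, ∑ d, (M a z * M a w) * (M b z * M b w) * (M c z * M c w) * (M d z * M d w))]
  rw [out (fun a z w => ∑ b, ∑ c, ∑ d, (M a z * M a w) * (M b z * M b w) * (M c z * M c w) * (M d z * M d w))]
  refine Finset.sum_congr rfl fun z _ => Finset.sum_congr rfl fun w _ => ?_
  rw [pow4 (fun a => M a z * M a w), pp_col h]

theorem sum_ta_sq (h : Sk M) : ∑ a, ∑ b, ∑ c, ta M a b c ^ 2 = ∑ z, ∑ w, pp M z w ^ 3 := by
  have h0 : ∀ a b c, ta M a b c ^ 2 =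
      ∑ z, ∑ w, (M a z * M a w) * (M b z * M b w) * (M c z * M c w) := by
    intro a b c
    rw [sq, ta, Finset.sum_mul_sum]
    exact Finset.sum_congr rfl fun z _ => Finset.sum_congr rfl fun w _ => by ring
  simp_rw [h0]
  rw [Finset.sum_congr rfl fun a _ => Finset.sum_congr rfl fun b _ =>
    out (fun c z w => (M a z * M a w) * (M b z * M b w) * (M c z * M c w))]
  rw [Finset.sum_congr rfl fun a _ =>
    out (fun b z w => ∑ c, (M a z * M a w) * (M b z * M b w) * (M c z * M c w))]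
  rw [out (fun a z w => ∑ b, ∑ c, (M a z * M a w) * (M b z * M b w) * (M c z * M c w))]
  refine Finset.sum_congr rfl fun z _ => Finset.sum_congr rfl fun w _ => ?_
  rw [pow3 (fun a => M a z * M a w), pp_col h]

theorem sum_ka_ge (h : Sk M) : (Fintype.card V : ℝ) * (Fintype.card V - 1) ^ 4 ≤
    ∑ a, ∑ b, ∑ c, ∑ d, ka M a b c d ^ 2 := by
  rw [sum_ka_sq h]
  have h1 : ∀ z : V, ((Fintype.card V : ℝ) - 1) ^ 4 ≤ ∑ w, pp M z w ^ 4 := by
    intro z
    have h2 := Finset.single_le_sum (s := Finset.univ) (f := fun w => pp M z w ^ 4)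
      (fun w _ => by positivity) (Finset.mem_univ z)
    simp only [pp_self h] at h2
    exact h2
  have h3 := Finset.sum_le_sum (s := Finset.univ) fun z (_ : z ∈ Finset.univ) => h1 z
  rw [Finset.sum_const, nsmul_eq_mul, Finset.card_univ] at h3
  exact h3

/-- diagonal plus off-diagonal bound -/
private theorem diag (g : V → V → ℝ) (A B : ℝ) (hB : 0 ≤ B) (h1 : ∀ z, g z z ≤ A)
    (h2 : ∀ z w, z ≠ w → g z w ≤ B) :
    ∑ z, ∑ w, g z w ≤ (Fintype.card V : ℝ) * A + (Fintype.card V : ℝ) ^ 2 * B := by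
  classical
  have h3 : ∀ z : V, ∑ w, g z w ≤ A + (Fintype.card V : ℝ) * B := by
    intro z
    have h4 : ∀ w, g z w ≤ (if w = z then A else 0) + B := by
      intro w
      by_cases hw : w = z
      · rw [hw, if_pos rfl]
        linarith [h1 z]
      · rw [if_neg hw]
        linarith [h2 z w (Ne.symm hw)]
    refine (Finset.sum_le_sum fun w _ => h4 w).trans (le_of_eq ?_)
    rw [Finset.sum_add_distrib, Finset.sum_ite_eq', if_pos (Finset.mem_univ z), Finset.sum_const, nsmul_eq_mul,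
      Finset.card_univ]
  refine (Finset.sum_le_sum fun z _ => h3 z).trans (le_of_eq ?_)
  rw [Finset.sum_const, nsmul_eq_mul, Finset.card_univ]
  ring

theorem sum_ka_le (h : Small M E) :
    ∑ a, ∑ b, ∑ c, ∑ d, ka M a b c d ^ 2 ≤ 2 * (Fintype.card V : ℝ) ^ 5 := by
  rw [sum_ka_sq h.sk]
  have hN := h.N_ge
  have hE := h.E_sq_le
  have hE1 := h.one
  set N : ℝ := ((Fintype.card V : ℕ) : ℝ) with hNdef
  have h1 := diag (fun z w => pp M z w ^ 4) ((N - 1) ^ 4) (N ^ 2) (by positivity)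
    (fun z => by simp only [pp_self h.sk]; exact le_rfl)
    (fun z w hzw => by
      have h2 := h.p z w hzw
      have h3 : pp M z w ^ 2 ≤ N := by
        rw [← sq_abs]
        nlinarith [abs_nonneg (pp M z w)]
      have h4 : pp M z w ^ 4 = (pp M z w ^ 2) ^ 2 := by ring
      simp only [h4]
      exact pow_le_pow_left₀ (sq_nonneg _) h3 2)
  refine h1.trans ?_
  rw [← hNdef]
  have h5 : (N - 1) ^ 4 ≤ N ^ 4 := pow_le_pow_left₀ (by linarith) (by linarith) 4
  have h6 : N ^ 2 * N ^ 2 ≤ N ^ 5 := by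
    have h7 : 0 ≤ N ^ 4 := by positivity
    have h8 : N ^ 5 = N ^ 4 * N := by ring
    rw [h8]
    nlinarith
  nlinarith

theorem sum_ta_le (h : Small M E) :
    ∑ a, ∑ b, ∑ c, ta M a b c ^ 2 ≤ 2 * (Fintype.card V : ℝ) ^ 4 := by
  rw [sum_ta_sq h.sk]
  have hN := h.N_ge
  have hE := h.E_sq_le
  have hE1 := h.one
  have hEN := h.E_le
  set N : ℝ := ((Fintype.card V : ℕ) : ℝ) with hNdef
  have h1 := diag (fun z w => pp M z w ^ 3) ((N - 1) ^ 3) (N ^ 2) (by positivity)
    (fun z => by simp only [pp_self h.sk]; exact le_rfl)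
    (fun z w hzw => by
      have h2 := h.p z w hzw
      have h3 : pp M z w ^ 2 ≤ N := by
        rw [← sq_abs]
        nlinarith [abs_nonneg (pp M z w)]
      have h4 : pp M z w ^ 3 = pp M z w ^ 2 * pp M z w := by ring
      have h5 : pp M z w ≤ N := (le_abs_self _).trans (h2.trans hEN)
      simp only [h4]
      have h6 : 0 ≤ pp M z w ^ 2 := sq_nonneg _
      nlinarith)
  refine h1.trans ?_
  rw [← hNdef]
  have h5 : (N - 1) ^ 3 ≤ N ^ 3 := pow_le_pow_left₀ (by linarith) (by linarith) 3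
  nlinarith

end Pool.Agent.Work.MP_40b2ba_co
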