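import Pool.Agent.Work.MP_40b2ba_co.OpG
import Pool.Agent.Work.MP_40b2ba_co.SumSq

set_option autoImplicit false
set_option linter.unusedSectionVars false

/-!
# LOne (size M): `ip L1 (sw L1) ≈ (N-1) ip GG (sw GG)` and the norm of `L1`

General lemma (`l1_gen`, for `H : V → V → V → V → ℝ`): `∑_{a,b,c,d} (∑_x M a x GG x b c d) (∑_y M a y H y b c d) =
∑_{x,y} pp x y ∑_{b,c,d} GG x b c d H y b c d`, because `∑_a M a x M a y = pp x y` (`pp_col`).  The diagonal `x = y` gives `(N-1) ip GG H`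
(`pp_self`).  The rest is `∑_{y,b,c,d} (∑_x q x y GG x b c d) H y b c d` with `q x y = pp x y` for `x ≠ y`, `0` for `x = y`; by
`|u v| ≤ (s u² + v² / s) / 2` with `s = 100 / N` it is at most `(s * A + B / s) / 2`, `A = ∑_{y,b,c,d} (∑_x q x y GG x b c d)² ≤
9 N^4 ∑_{x,y} q² ≤ 9 N^6 E² ≤ 9 N^7 / 40000` (`gg_op` for each `y`), `B = ∑ H²`.
Take `H = sw GG` (`sw GG y b c d = GG y c b d`; `∑_y M a y GG y c b d = L1 a c b d = sw L1 a b c d`) and `H = GG`; in both cases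
`B = ∑ GG² ≤ ∑ ka² ≤ 2 N^5` (`sum_ka_le`, `|M| ≤ 1`; for `sw GG` exchange two sums).  So the error is at most
`(100 * 9 / 40000 + 2 / 100) / 2 * N^6 = 0.02125 N^6`.  `l1_norm`: `(N-1) * 2 N^5 + 0.03 N^6 ≤ 3 N^6`.
-/

namespace Pool.Agent.Work.MP_40b2ba_co

variable {V : Type*} [Fintype V] {M : V → V → ℝ} {E : ℝ}

private theorem rot4 (F : V → V → V → V → ℝ) :
    ∑ a, ∑ b, ∑ c, ∑ d, F a b c d = ∑ b, ∑ c, ∑ d, ∑ a, F a b c d := by
  rw [Finset.sum_comm]
  refine Finset.sum_congr rfl fun b _ => ?_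
  rw [Finset.sum_comm]
  refine Finset.sum_congr rfl fun c _ => ?_
  rw [Finset.sum_comm]

private theorem one_var (h : Sk M) (g k : V → ℝ) :
    ∑ a, (∑ x, M a x * g x) * (∑ y, M a y * k y) = ∑ y, (∑ x, pp M x y * g x) * k y := by
  have h1 : ∀ a, (∑ x, M a x * g x) * (∑ y, M a y * k y) =
      ∑ y, ∑ x, M a x * M a y * (g x * k y) := by
    intro a
    rw [Finset.sum_mul_sum, Finset.sum_comm]
    refine Finset.sum_congr rfl fun y _ => Finset.sum_congr rfl fun x _ => ?_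
    ring
  rw [Finset.sum_congr rfl fun a _ => h1 a, Finset.sum_comm]
  refine Finset.sum_congr rfl fun y _ => ?_
  rw [Finset.sum_comm, Finset.sum_mul]
  refine Finset.sum_congr rfl fun x _ => ?_
  rw [← Finset.sum_mul, pp_col h]
  ring

private theorem gen (h : Small M E) (H : V → V → V → V → ℝ)
    (hH : ∑ a, ∑ b, ∑ c, ∑ d, H a b c d ^ 2 ≤ 2 * (Fintype.card V : ℝ) ^ 5) :
    |∑ a, ∑ b, ∑ c, ∑ d, L1 M a b c d * (∑ y, M a y * H y b c d) -
      (Fintype.card V - 1) * ∑ a, ∑ b, ∑ c, ∑ d, GG M a b c d * H a b c d| ≤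
      0.03 * (Fintype.card V : ℝ) ^ 6 := by
  classical
  have hN := h.N_ge
  set N : ℝ := (Fintype.card V : ℝ) with hNdef
  have hN0 : 0 < N := by linarith
  set q : V → V → ℝ := fun y x => if x = y then 0 else pp M x y with hq
  set Q : V → V → V → V → ℝ := fun y b c d => ∑ x, q y x * GG M x b c d with hQ
  have e1 : ∑ a, ∑ b, ∑ c, ∑ d, L1 M a b c d * (∑ y, M a y * H y b c d) =
      ∑ a, ∑ b, ∑ c, ∑ d, ((N - 1) * (GG M a b c d * H a b c d) + Q a b c d * H a b c d) := by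
    rw [rot4, rot4 (fun a b c d => (N - 1) * (GG M a b c d * H a b c d) + Q a b c d * H a b c d)]
    refine Finset.sum_congr rfl fun b _ => Finset.sum_congr rfl fun c _ =>
      Finset.sum_congr rfl fun d _ => ?_
    have h2 := one_var h.sk (fun x => GG M x b c d) (fun y => H y b c d)
    simp only [L1]
    rw [h2]
    refine Finset.sum_congr rfl fun y _ => ?_
    have h3 : ∑ x, pp M x y * GG M x b c d = (N - 1) * GG M y b c d + Q y b c d := by
      have h4 : ∀ x, pp M x y * GG M x b c d =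
          (if x = y then (N - 1) * GG M y b c d else 0) + q y x * GG M x b c d := by
        intro x
        by_cases hxy : x = y
        · subst hxy
          simp only [hq, if_true]
          rw [pp_self h.sk]
          ring
        · simp only [hq, if_neg hxy]
          ring
      rw [Finset.sum_congr rfl fun x _ => h4 x, Finset.sum_add_distrib, Finset.sum_ite_eq' Finset.univ y]
      simp [hQ]
    rw [h3]
    ring
  have e2 : ∑ a, ∑ b, ∑ c, ∑ d, ((N - 1) * (GG M a b c d * H a b c d) + Q a b c d * H a b c d) -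
      (N - 1) * ∑ a, ∑ b, ∑ c, ∑ d, GG M a b c d * H a b c d =
      ∑ a, ∑ b, ∑ c, ∑ d, Q a b c d * H a b c d := by
    simp only [Finset.sum_add_distrib, Finset.mul_sum]
    ring
  rw [e1, e2]
  have hA : ∑ a, ∑ b, ∑ c, ∑ d, Q a b c d ^ 2 ≤ 9 * N ^ 7 / 40000 := by
    have h5 : ∀ a, ∑ b, ∑ c, ∑ d, Q a b c d ^ 2 ≤ 9 * N ^ 4 * (N * E ^ 2) := by
      intro a
      refine (gg_op h (q a)).trans ?_
      refine mul_le_mul_of_nonneg_left ?_ (by positivity)
      calc ∑ y, q a y ^ 2 ≤ ∑ _y : V, E ^ 2 := by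
            refine Finset.sum_le_sum fun y _ => ?_
            by_cases hy : y = a
            · simp only [hq, if_pos hy]
              nlinarith [sq_nonneg E]
            · simp only [hq, if_neg hy]
              rw [← sq_abs]
              exact pow_le_pow_left₀ (abs_nonneg _) (h.p y a hy) 2
        _ = N * E ^ 2 := by simp [hNdef]
    calc ∑ a, ∑ b, ∑ c, ∑ d, Q a b c d ^ 2 ≤ ∑ _a : V, 9 * N ^ 4 * (N * E ^ 2) :=
          Finset.sum_le_sum fun a _ => h5 a
      _ = 9 * N ^ 6 * E ^ 2 := by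
          simp [← hNdef]
          ring
      _ ≤ 9 * N ^ 7 / 40000 := by
          have hb := h.big
          have h6 : E ^ 2 ≤ N / 40000 := by
            rw [le_div_iff₀ (by norm_num)]
            linarith
          have h7 : 9 * N ^ 6 * E ^ 2 ≤ 9 * N ^ 6 * (N / 40000) :=
            mul_le_mul_of_nonneg_left h6 (by positivity)
          linarith [h7, show 9 * N ^ 6 * (N / 40000) = 9 * N ^ 7 / 40000 by ring]
  have hp : ∀ u v : ℝ, |u * v| ≤ (100 / N * u ^ 2 + N / 100 * v ^ 2) / 2 := by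
    intro u v
    have h8 : 0 ≤ (10 * |u| - N / 10 * |v|) ^ 2 := sq_nonneg _
    have h9 : 0 ≤ (10 * |u| - N / 10 * |v|) ^ 2 / N := div_nonneg h8 hN0.le
    have h10 : (10 * |u| - N / 10 * |v|) ^ 2 / N =
        100 / N * |u| ^ 2 - 2 * (|u| * |v|) + N / 100 * |v| ^ 2 := by
      field_simp
      ring
    rw [h10, sq_abs, sq_abs] at h9
    rw [abs_mul]
    linarith
  have habs : |∑ a, ∑ b, ∑ c, ∑ d, Q a b c d * H a b c d| ≤
      ∑ a, ∑ b, ∑ c, ∑ d, (100 / N * Q a b c d ^ 2 + N / 100 * H a b c d ^ 2) / 2 := by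
    refine (Finset.abs_sum_le_sum_abs _ _).trans (Finset.sum_le_sum fun a _ => ?_)
    refine (Finset.abs_sum_le_sum_abs _ _).trans (Finset.sum_le_sum fun b _ => ?_)
    refine (Finset.abs_sum_le_sum_abs _ _).trans (Finset.sum_le_sum fun c _ => ?_)
    refine (Finset.abs_sum_le_sum_abs _ _).trans (Finset.sum_le_sum fun d _ => ?_)
    exact hp _ _
  have e3 : ∑ a, ∑ b, ∑ c, ∑ d, (100 / N * Q a b c d ^ 2 + N / 100 * H a b c d ^ 2) / 2 =
      (100 / N * ∑ a, ∑ b, ∑ c, ∑ d, Q a b c d ^ 2 +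
        N / 100 * ∑ a, ∑ b, ∑ c, ∑ d, H a b c d ^ 2) / 2 := by
    simp only [← Finset.sum_div, Finset.sum_add_distrib, Finset.mul_sum]
  rw [e3] at habs
  have h11 : 100 / N * ∑ a, ∑ b, ∑ c, ∑ d, Q a b c d ^ 2 ≤ 100 / N * (9 * N ^ 7 / 40000) :=
    mul_le_mul_of_nonneg_left hA (by positivity)
  have h12 : N / 100 * ∑ a, ∑ b, ∑ c, ∑ d, H a b c d ^ 2 ≤ N / 100 * (2 * N ^ 5) :=
    mul_le_mul_of_nonneg_left hH (by positivity)
  have h13 : 100 / N * (9 * N ^ 7 / 40000) = 9 / 400 * N ^ 6 := by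
    field_simp
    norm_num
  have h14 : N / 100 * (2 * N ^ 5) = 1 / 50 * N ^ 6 := by ring
  rw [h13] at h11
  rw [h14] at h12
  have h15 : 0 ≤ N ^ 6 := by positivity
  norm_num
  linarith

private theorem gg_sq (h : Small M E) :
    ∑ a, ∑ b, ∑ c, ∑ d, GG M a b c d ^ 2 ≤ 2 * (Fintype.card V : ℝ) ^ 5 := by
  refine (Finset.sum_le_sum fun a _ => Finset.sum_le_sum fun b _ => Finset.sum_le_sum fun c _ =>
    Finset.sum_le_sum fun d _ => ?_).trans (sum_ka_le h)
  rw [GG, mul_pow]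
  have h1 : (M a b * M c d) ^ 2 ≤ 1 := by
    have h2 := abs_mul_le_one (h.sk.abs_le a b) (h.sk.abs_le c d)
    rw [← sq_abs]
    exact pow_le_one₀ (abs_nonneg _) h2
  calc (M a b * M c d) ^ 2 * ka M a b c d ^ 2 ≤ 1 * ka M a b c d ^ 2 :=
        mul_le_mul_of_nonneg_right h1 (sq_nonneg _)
    _ = ka M a b c d ^ 2 := one_mul _

theorem l1_ip (h : Small M E) :
    |ip (L1 M) (sw (L1 M)) - (Fintype.card V - 1) * ip (GG M) (sw (GG M))| ≤
      0.03 * (Fintype.card V : ℝ) ^ 6 := by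
  have h1 := gen h (sw (GG M)) (by
    refine le_trans (le_of_eq ?_) (gg_sq h)
    refine Finset.sum_congr rfl fun a _ => ?_
    rw [Finset.sum_comm]
    rfl)
  exact h1

theorem l1_norm (h : Small M E) :
    ∑ a, ∑ b, ∑ c, ∑ d, L1 M a b c d ^ 2 ≤ 3 * (Fintype.card V : ℝ) ^ 6 := by
  have h1 := gen h (GG M) (gg_sq h)
  have hN := h.N_ge
  have h2 := gg_sq h
  have e1 : ∑ a, ∑ b, ∑ c, ∑ d, L1 M a b c d ^ 2 =
      ∑ a, ∑ b, ∑ c, ∑ d, L1 M a b c d * (∑ y, M a y * GG M y b c d) := by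
    refine Finset.sum_congr rfl fun a _ => Finset.sum_congr rfl fun b _ =>
      Finset.sum_congr rfl fun c _ => Finset.sum_congr rfl fun d _ => ?_
    rw [sq]
    rfl
  have e2 : ∑ a, ∑ b, ∑ c, ∑ d, GG M a b c d ^ 2 =
      ∑ a, ∑ b, ∑ c, ∑ d, GG M a b c d * GG M a b c d := by
    refine Finset.sum_congr rfl fun a _ => Finset.sum_congr rfl fun b _ =>
      Finset.sum_congr rfl fun c _ => Finset.sum_congr rfl fun d _ => ?_
    rw [sq]
  rw [e1]
  rw [e2] at h2
  have h3 := (abs_le.1 h1).2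
  have h4 : ((Fintype.card V : ℝ) - 1) * ∑ a, ∑ b, ∑ c, ∑ d, GG M a b c d * GG M a b c d ≤
      ((Fintype.card V : ℝ) - 1) * (2 * (Fintype.card V : ℝ) ^ 5) :=
    mul_le_mul_of_nonneg_left h2 (by linarith)
  have h5 : 0 ≤ (Fintype.card V : ℝ) ^ 5 := by positivity
  have h6 : 0 ≤ (Fintype.card V : ℝ) ^ 6 := by positivity
  norm_num at h3
  nlinarith [h3, h4, h5, h6]

end Pool.Agent.Work.MP_40b2ba_co
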