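import Pool.Agent.Work.MP_40b2ba_co.NegIp
import Pool.Agent.Work.MP_40b2ba_co.LNorm
import Pool.Agent.Work.MP_40b2ba_co.Exact
import Pool.Agent.Work.MP_40b2ba_co.LOne

set_option autoImplicit false
set_option linter.unusedSectionVars false

/-!
# Core (size S-M): `Small` is contradictory

`ip` is bilinear; `ip F (sw H)` satisfies `2 |ip F (sw H)| ≤ s ∑ F² + (1 / s) ∑ H²` for `s > 0` (`2 |u v| ≤ s u² + v² / s`, and
`∑ (sw H)² = ∑ H²` by exchanging two sums).  Put `f2 = L2 - L1`, `f3 = L3 + L1`.  By `ip_L`: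
`ip L1 (sw L1) = ip (L1 + f2) (sw (- L1 + f3)) = - ip L1 (sw L1) + ip L1 (sw f3) - ip f2 (sw L1) + ip f2 (sw f3)`.  With `l1_norm`, `f2_le`, `f3_le`:
`2 |ip L1 (sw f3)| ≤ 0.04 * 3 N^6 + 0.0048 N^6 / 0.04 = 0.24 N^6`, `2 |ip f2 (sw L1)| ≤ 0.0012 N^6 / 0.02 + 0.02 * 3 N^6 = 0.12 N^6`,
`2 |ip f2 (sw f3)| ≤ 0.006 N^6`.  So `4 |ip L1 (sw L1)| ≤ 0.366 N^6`, `|ip L1 (sw L1)| ≤ 0.0915 N^6`.  With `l1_ip`:
`(N-1) (- ip GG (sw GG)) ≤ 0.1215 N^6`, but `- ip GG (sw GG) ≥ N^5 / 2` (`neg_ip`) and `N ≥ 40000`: contradiction.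
-/

namespace Pool.Agent.Work.MP_40b2ba_co

variable {V : Type*} [Fintype V] {M : V → V → ℝ} {E : ℝ}

private theorem core_nrm_sw (H : V → V → V → V → ℝ) :
    ∑ a, ∑ b, ∑ c, ∑ d, sw H a b c d ^ 2 = ∑ a, ∑ b, ∑ c, ∑ d, H a b c d ^ 2 := by
  refine Finset.sum_congr rfl fun a _ => ?_
  rw [Finset.sum_comm]
  rfl

private theorem core_amgm {s : ℝ} (hs : 0 < s) (u v : ℝ) :
    2 * (u * v) ≤ s * u ^ 2 + (1 / s) * v ^ 2 := by
  have h1 : 0 ≤ (1 / s) * (s * u - v) ^ 2 := by positivity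
  have h2 : (1 / s) * (s * u - v) ^ 2 = s * u ^ 2 + (1 / s) * v ^ 2 - 2 * (u * v) := by
    field_simp
    ring
  linarith

private theorem core_ip_le {s : ℝ} (hs : 0 < s) (F H : V → V → V → V → ℝ) :
    2 * ip F (sw H) ≤ s * ∑ a, ∑ b, ∑ c, ∑ d, F a b c d ^ 2 +
      (1 / s) * ∑ a, ∑ b, ∑ c, ∑ d, H a b c d ^ 2 := by
  rw [← core_nrm_sw H, ip]
  simp only [Finset.mul_sum, ← Finset.sum_add_distrib]
  exact Finset.sum_le_sum fun a _ => Finset.sum_le_sum fun b _ => Finset.sum_le_sum fun c _ =>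
    Finset.sum_le_sum fun d _ => core_amgm hs _ _

private theorem core_ip_ge {s : ℝ} (hs : 0 < s) (F H : V → V → V → V → ℝ) :
    - (s * ∑ a, ∑ b, ∑ c, ∑ d, F a b c d ^ 2 +
      (1 / s) * ∑ a, ∑ b, ∑ c, ∑ d, H a b c d ^ 2) ≤ 2 * ip F (sw H) := by
  have h1 := core_ip_le hs (fun a b c d => - F a b c d) H
  have h2 : ip (fun a b c d => - F a b c d) (sw H) = - ip F (sw H) := by
    simp only [ip, neg_mul, Finset.sum_neg_distrib]
  rw [h2] at h1
  simp only [neg_sq] at h1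
  linarith

private theorem core_expand (L1' L2' L3' : V → V → V → V → ℝ) :
    ip L2' (sw L3') = - ip L1' (sw L1') + ip L1' (sw fun a b c d => L3' a b c d + L1' a b c d)
      - ip (fun a b c d => L2' a b c d - L1' a b c d) (sw L1')
      + ip (fun a b c d => L2' a b c d - L1' a b c d)
          (sw fun a b c d => L3' a b c d + L1' a b c d) := by
  simp only [ip, sw, ← Finset.sum_neg_distrib, ← Finset.sum_add_distrib, ← Finset.sum_sub_distrib]
  refine Finset.sum_congr rfl fun a _ => Finset.sum_congr rfl fun b _ =>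
    Finset.sum_congr rfl fun c _ => Finset.sum_congr rfl fun d _ => ?_
  ring

theorem not_small (h : Small M E) : False := by
  have hN := h.N_ge
  have hneg := neg_ip h
  have hl1 := l1_ip h
  have hn1 := l1_norm h
  have hf2 := f2_le h
  have hf3 := f3_le h
  have hL := ip_L (M := M) h.sk
  have hx := core_expand (L1 M) (L2 M) (L3 M)
  set F2 : V → V → V → V → ℝ := fun a b c d => L2 M a b c d - L1 M a b c d with hF2
  set F3 : V → V → V → V → ℝ := fun a b c d => L3 M a b c d + L1 M a b c d with hF3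
  have hf2' : ∑ a, ∑ b, ∑ c, ∑ d, F2 a b c d ^ 2 ≤ 0.0012 * (Fintype.card V : ℝ) ^ 6 := hf2
  have hf3' : ∑ a, ∑ b, ∑ c, ∑ d, F3 a b c d ^ 2 ≤ 0.0048 * (Fintype.card V : ℝ) ^ 6 := hf3
  have a1 := core_ip_le (s := 0.04) (by norm_num) (L1 M) F3
  have a2 := core_ip_ge (s := 0.04) (by norm_num) (L1 M) F3
  have b1 := core_ip_le (s := 50) (by norm_num) F2 (L1 M)
  have b2 := core_ip_ge (s := 50) (by norm_num) F2 (L1 M)
  have c1 := core_ip_le (s := 1) (by norm_num) F2 F3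
  have c2 := core_ip_ge (s := 1) (by norm_num) F2 F3
  have d1 := (abs_le.1 hl1).1
  have d2 := (abs_le.1 hl1).2
  have e04 : (1 : ℝ) / 0.04 = 25 := by norm_num
  have e50 : (1 : ℝ) / 50 = 0.02 := by norm_num
  have e1 : (1 : ℝ) / 1 = 1 := by norm_num
  rw [e04] at a1 a2
  rw [e50] at b1 b2
  rw [e1] at c1 c2
  rw [← hL] at hx
  have hP : (0 : ℝ) < (Fintype.card V : ℝ) ^ 5 := by positivity
  have k1 : (Fintype.card V : ℝ) ^ 6 = (Fintype.card V : ℝ) * (Fintype.card V : ℝ) ^ 5 := by ring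
  have k2 : (40000 : ℝ) * (Fintype.card V : ℝ) ^ 5 ≤ (Fintype.card V : ℝ) * (Fintype.card V : ℝ) ^ 5 :=
    mul_le_mul_of_nonneg_right hN hP.le
  have k3 : ((Fintype.card V : ℝ) - 1) * ((Fintype.card V : ℝ) ^ 5 / 2) ≤
      ((Fintype.card V : ℝ) - 1) * (- ip (GG M) (sw (GG M))) :=
    mul_le_mul_of_nonneg_left (by linarith) (by linarith)
  have k4 : ((Fintype.card V : ℝ) - 1) * ((Fintype.card V : ℝ) ^ 5 / 2) =
      (Fintype.card V : ℝ) ^ 6 / 2 - (Fintype.card V : ℝ) ^ 5 / 2 := by ring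
  have k5 : ((Fintype.card V : ℝ) - 1) * (- ip (GG M) (sw (GG M))) =
      - (((Fintype.card V : ℝ) - 1) * ip (GG M) (sw (GG M))) := by ring
  rw [k4, k5] at k3
  rw [← k1] at k2
  have k6 : (0 : ℝ) < (Fintype.card V : ℝ) ^ 6 := by positivity
  linarith

end Pool.Agent.Work.MP_40b2ba_co
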