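import Mathlib

set_option autoImplicit false

/-!
# Definitions: tournaments without large transitive subtournaments

`f n` is the least order which forces a transitive subtournament with `n` vertices.

Matrix part: `M` is the skew matrix of a tournament, `N` the number of vertices, `rr`, `pp`, `ta`, `ka` are
the correlations of one, two, three and four rows, `xi a b c = M a b * M b c * M c a`,
`GG a b c d = M a b * M c d * ka a b c d = ∑ e, xi a b e * xi c d e`; `L1`, `L2`, `L3` are the images of `GG`
under `M` acting on the first, second, third variable; `sw` exchanges the second and the third variable.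
-/

namespace Pool.Agent.Work.MP_40b2ba_co

/-- a tournament on `V`: an irreflexive relation such that exactly one of `R a b`, `R b a` holds for all
`a ≠ b` -/
def IsTour {V : Type*} (R : V → V → Prop) : Prop :=
  (∀ a, ¬ R a a) ∧ ∀ a b, a ≠ b → (R a b ∧ ¬ R b a) ∨ (R b a ∧ ¬ R a b)

/-- there is a transitive subtournament with `n` vertices -/
def HasTT {V : Type*} (R : V → V → Prop) (n : ℕ) : Prop :=
  ∃ v : Fin n → V, ∀ i j, i < j → R (v i) (v j)

/-- the least `m` such that every tournament of order `m` has a transitive subtournament with `n`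
vertices -/
noncomputable def f (n : ℕ) : ℕ :=
  sInf {m : ℕ | ∀ R : Fin m → Fin m → Prop, IsTour R → HasTT R n}

/-- the `i`-th slot of the list `l`: all vertices which are dominated by the first `i` members of `l` and
dominate the other members -/
def slotL {V : Type*} (R : V → V → Prop) (l : List V) (i : ℕ) : Set V :=
  {z | (∀ a ∈ l.take i, R a z) ∧ ∀ a ∈ l.drop i, R z a}

/-- skew matrices with entries `± 1` outside the diagonal -/
structure Sk {V : Type*} (M : V → V → ℝ) : Prop where
  skew : ∀ a b, M a b = - M b a
  sq : ∀ a b, a ≠ b → M a b * M a b = 1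

section defs

variable {V : Type*} [Fintype V] (M : V → V → ℝ)

noncomputable def rr (a : V) : ℝ := ∑ z, M a z
noncomputable def pp (a b : V) : ℝ := ∑ z, M a z * M b z
noncomputable def ta (a b c : V) : ℝ := ∑ z, M a z * M b z * M c z
noncomputable def ka (a b c d : V) : ℝ := ∑ z, M a z * M b z * M c z * M d z
noncomputable def xi (a b c : V) : ℝ := M a b * M b c * M c a
noncomputable def GG (a b c d : V) : ℝ := M a b * M c d * ka M a b c d
noncomputable def L1 (a b c d : V) : ℝ := ∑ x, M a x * GG M x b c d
noncomputable def L2 (a b c d : V) : ℝ := ∑ x, M b x * GG M a x c d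
noncomputable def L3 (a b c d : V) : ℝ := ∑ x, M c x * GG M a b x d

/-- sum of the products `M a b * M b c` over the cyclic rotations: `3` for cyclic triples, `-1` for
transitive triples -/
noncomputable def cy (a b c : V) : ℝ := M a b * M b c + M b c * M c a + M c a * M a b

noncomputable def WW (a b c d : V) : ℝ := cy M a b c + cy M a b d + cy M a c d + cy M b c d

noncomputable def QQ (a b c d : V) : ℝ :=
  - (M a b * M c d * (M a c * M b d)) - M a c * M b d * (M a d * M b c) + M a b * M c d * (M a d * M b c)

end defs

/-- inner product of functions of four variables -/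
noncomputable def ip {V : Type*} [Fintype V] (F H : V → V → V → V → ℝ) : ℝ :=
  ∑ a, ∑ b, ∑ c, ∑ d, F a b c d * H a b c d

/-- exchange of the second and the third variable -/
def sw {V : Type*} (F : V → V → V → V → ℝ) (a b c d : V) : ℝ := F a c b d

/-- all correlations on transitive sets are at most `E` (to be refuted for `40000 * E ^ 2 ≤ N`) -/
structure Small {V : Type*} [Fintype V] (M : V → V → ℝ) (E : ℝ) : Prop where
  sk : Sk M
  one : 1 ≤ E
  big : 40000 * E ^ 2 ≤ Fintype.card V
  r : ∀ a, |rr M a| ≤ E
  p : ∀ a b, a ≠ b → |pp M a b| ≤ E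
  t : ∀ a b c, a ≠ b → a ≠ c → b ≠ c → ¬ (M a b = M b c ∧ M b c = M c a) → |ta M a b c| ≤ E
  k : ∀ a b c d, M a b = 1 → M a c = 1 → M a d = 1 → M b c = 1 → M b d = 1 → M c d = 1 →
    |ka M a b c d| ≤ E

end Pool.Agent.Work.MP_40b2ba_co
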