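import Pool.Agent.Work.MP_40b2ba_co.Basic

set_option autoImplicit false
set_option linter.unusedSectionVars false

/-!
# Degen (size S-M): quadruples with a repetition contribute little

`∑_{a,c,d} ka a a c d ^ 2 ≤ 5 N^4`: for `c = d` use `|ka| ≤ N` (`abs_ka_le`), `N²` terms; for `c ≠ d` `|ka a a c d| ≤ 2 E`
(`Small.ka_self_le`), `4 E² ≤ 4 N`, `N³` terms.  The indicator of `a = b ∨ ...` is at most the sum of the six indicators, and each of the six
sums is `∑_{x,y,z} ka x x y z ^ 2` by the symmetry of `ka` (`ka_12`, `ka_23`, `ka_34`).  Total `30 N^4`.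
-/

namespace Pool.Agent.Work.MP_40b2ba_co

variable {V : Type*} [Fintype V] [DecidableEq V] {M : V → V → ℝ} {E : ℝ}

theorem diag_le (h : Small M E) : ∑ a, ∑ c, ∑ d, ka M a a c d ^ 2 ≤ 5 * (Fintype.card V : ℝ) ^ 4 := by
  set N : ℝ := (Fintype.card V : ℝ) with hN
  have hN0 : 0 ≤ N := by positivity
  have hE : E ^ 2 ≤ N := h.E_sq_le
  have key : ∀ a c d, ka M a a c d ^ 2 ≤ 4 * N + (if c = d then N ^ 2 else 0) := by
    intro a c d
    by_cases hcd : c = d
    · have h1 := abs_ka_le h.sk a a c d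
      rw [if_pos hcd, ← sq_abs]
      have h2 := abs_nonneg (ka M a a c d)
      nlinarith
    · have h1 := h.ka_self_le a c d hcd
      rw [if_neg hcd, ← sq_abs]
      have h2 := abs_nonneg (ka M a a c d)
      nlinarith
  calc ∑ a, ∑ c, ∑ d, ka M a a c d ^ 2
      ≤ ∑ _a : V, ∑ c : V, ∑ d : V, (4 * N + (if c = d then N ^ 2 else 0)) :=
        Finset.sum_le_sum fun a _ => Finset.sum_le_sum fun c _ => Finset.sum_le_sum fun d _ =>
          key a c d
    _ = 4 * N ^ 4 + N ^ 4 := by
        simp only [Finset.sum_add_distrib, Finset.sum_ite_eq, Finset.mem_univ, if_true,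
          Finset.sum_const, Finset.card_univ, nsmul_eq_mul]
        rw [← hN]
        ring
    _ = 5 * N ^ 4 := by ring

theorem degen_le (h : Small M E) :
    ∑ a, ∑ b, ∑ c, ∑ d, (if a = b ∨ a = c ∨ a = d ∨ b = c ∨ b = d ∨ c = d then ka M a b c d ^ 2 else 0) ≤
      30 * (Fintype.card V : ℝ) ^ 4 := by
  have hd := diag_le h
  set D : ℝ := ∑ a, ∑ c, ∑ d, ka M a a c d ^ 2 with hD
  have key : ∀ a b c d, (if a = b ∨ a = c ∨ a = d ∨ b = c ∨ b = d ∨ c = d then
      ka M a b c d ^ 2 else 0) ≤
      (if a = b then ka M a b c d ^ 2 else 0) + (if a = c then ka M a b c d ^ 2 else 0) +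
      (if a = d then ka M a b c d ^ 2 else 0) + (if b = c then ka M a b c d ^ 2 else 0) +
      (if b = d then ka M a b c d ^ 2 else 0) + (if c = d then ka M a b c d ^ 2 else 0) := by
    intro a b c d
    have h0 : 0 ≤ ka M a b c d ^ 2 := sq_nonneg _
    have hi : ∀ p : Prop, ∀ _ : Decidable p, 0 ≤ (if p then ka M a b c d ^ 2 else 0) := by
      intro p _
      split_ifs <;> first | exact h0 | exact le_rfl
    have i1 := hi (a = b) inferInstance
    have i2 := hi (a = c) inferInstance
    have i3 := hi (a = d) inferInstance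
    have i4 := hi (b = c) inferInstance
    have i5 := hi (b = d) inferInstance
    have i6 := hi (c = d) inferInstance
    by_cases hh : a = b ∨ a = c ∨ a = d ∨ b = c ∨ b = d ∨ c = d
    · rw [if_pos hh]
      rcases hh with h1 | h1 | h1 | h1 | h1 | h1
      · rw [if_pos h1] at i1 ⊢
        linarith
      · rw [if_pos h1] at i2 ⊢
        linarith
      · rw [if_pos h1] at i3 ⊢
        linarith
      · rw [if_pos h1] at i4 ⊢
        linarith
      · rw [if_pos h1] at i5 ⊢
        linarith
      · rw [if_pos h1] at i6 ⊢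
        linarith
    · rw [if_neg hh]
      linarith
  have e1 : ∑ a, ∑ b, ∑ c, ∑ d, (if a = b then ka M a b c d ^ 2 else 0) = D := by
    rw [hD]
    refine Finset.sum_congr rfl fun a _ => ?_
    rw [Finset.sum_eq_single a]
    · simp
    · intro b _ hb
      simp [Ne.symm hb]
    · simp
  have e2 : ∑ a, ∑ b, ∑ c, ∑ d, (if a = c then ka M a b c d ^ 2 else 0) = D := by
    rw [← e1]
    refine Finset.sum_congr rfl fun a _ => ?_
    rw [Finset.sum_comm]
    refine Finset.sum_congr rfl fun b _ => Finset.sum_congr rfl fun c _ =>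
      Finset.sum_congr rfl fun d _ => ?_
    rw [ka_23]
  have e3 : ∑ a, ∑ b, ∑ c, ∑ d, (if a = d then ka M a b c d ^ 2 else 0) = D := by
    rw [← e2]
    refine Finset.sum_congr rfl fun a _ => Finset.sum_congr rfl fun b _ => ?_
    rw [Finset.sum_comm]
    refine Finset.sum_congr rfl fun c _ => Finset.sum_congr rfl fun d _ => ?_
    rw [ka_34]
  have e4 : ∑ a, ∑ b, ∑ c, ∑ d, (if b = c then ka M a b c d ^ 2 else 0) = D := by
    rw [← e2, Finset.sum_comm]
    refine Finset.sum_congr rfl fun a _ => Finset.sum_congr rfl fun b _ =>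
      Finset.sum_congr rfl fun c _ => Finset.sum_congr rfl fun d _ => ?_
    rw [ka_12]
  have e5 : ∑ a, ∑ b, ∑ c, ∑ d, (if b = d then ka M a b c d ^ 2 else 0) = D := by
    rw [← e3, Finset.sum_comm]
    refine Finset.sum_congr rfl fun a _ => Finset.sum_congr rfl fun b _ =>
      Finset.sum_congr rfl fun c _ => Finset.sum_congr rfl fun d _ => ?_
    rw [ka_12]
  have e6 : ∑ a, ∑ b, ∑ c, ∑ d, (if c = d then ka M a b c d ^ 2 else 0) = D := by
    rw [← e5]
    refine Finset.sum_congr rfl fun a _ => ?_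
    rw [Finset.sum_comm]
    refine Finset.sum_congr rfl fun b _ => Finset.sum_congr rfl fun c _ =>
      Finset.sum_congr rfl fun d _ => ?_
    rw [ka_23]
  calc ∑ a, ∑ b, ∑ c, ∑ d, (if a = b ∨ a = c ∨ a = d ∨ b = c ∨ b = d ∨ c = d then
      ka M a b c d ^ 2 else 0)
      ≤ ∑ a, ∑ b, ∑ c, ∑ d,
        ((if a = b then ka M a b c d ^ 2 else 0) + (if a = c then ka M a b c d ^ 2 else 0) +
        (if a = d then ka M a b c d ^ 2 else 0) + (if b = c then ka M a b c d ^ 2 else 0) +
        (if b = d then ka M a b c d ^ 2 else 0) + (if c = d then ka M a b c d ^ 2 else 0)) :=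
        Finset.sum_le_sum fun a _ => Finset.sum_le_sum fun b _ => Finset.sum_le_sum fun c _ =>
          Finset.sum_le_sum fun d _ => key a b c d
    _ = D + D + D + D + D + D := by
        simp only [Finset.sum_add_distrib]
        rw [e1, e2, e3, e4, e5, e6]
    _ ≤ 30 * (Fintype.card V : ℝ) ^ 4 := by linarith

end Pool.Agent.Work.MP_40b2ba_co
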