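import Pool.Agent.Work.MP_40b2ba_co.Basic

set_option autoImplicit false
set_option linter.unusedSectionVars false

/-!
# Gram (size S-M): the Gram matrix of `xi`

`∑_{c,d} xi c d e * xi c d f = ∑_{c,d} (M c d)² (M d e M d f) (M e c M f c)`; `(M c d)² = 1` for `c ≠ d` and `0` for `c = d`, so it is
`pp e f ^ 2 - ∑_c (M e c * M f c) ^ 2` (up to signs of squares).  For `e = f` it lies between `0` and `N²`; for `e ≠ f` both `pp e f ^ 2 ≤ E² ≤ N`
and `∑_c (..)² ≤ N` lie in `[0, N]`, so the absolute value is at most `N`.  Then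
`∑_{c,d} (∑_e x e xi c d e)² = ∑_{e,f} x e x f gram e f ≤ N² ∑ x² + N ∑_{e,f} (x e² + x f²) / 2 ≤ 2 N² ∑ x² ≤ 3 N² ∑ x²`.
-/

namespace Pool.Agent.Work.MP_40b2ba_co

variable {V : Type*} [Fintype V] {M : V → V → ℝ} {E : ℝ}

theorem gram_eq (h : Sk M) (e f : V) :
    ∑ c, ∑ d, xi M c d e * xi M c d f = pp M e f ^ 2 - ∑ c, (M e c * M f c) ^ 2 := by
  classical
  have h1 : ∀ c d, xi M c d e * xi M c d f =
      (M e c * M f c) * (M e d * M f d) - (if c = d then (M e c * M f c) ^ 2 else 0) := by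
    intro c d
    unfold xi
    rw [h.skew d e, h.skew d f]
    by_cases hcd : c = d
    · subst hcd
      rw [if_pos rfl, h.self]
      ring
    · rw [if_neg hcd]
      linear_combination (M e c * M f c) * (M e d * M f d) * h.sq c d hcd
  have h2 : ∀ c, ∑ d, xi M c d e * xi M c d f =
      (M e c * M f c) * pp M e f - (M e c * M f c) ^ 2 := by
    intro c
    rw [Finset.sum_congr rfl fun d _ => h1 c d, Finset.sum_sub_distrib, ← Finset.mul_sum,
      Finset.sum_ite_eq Finset.univ c, if_pos (Finset.mem_univ c)]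
    rfl
  rw [Finset.sum_congr rfl fun c _ => h2 c, Finset.sum_sub_distrib, ← Finset.sum_mul]
  congr 1
  rw [sq]
  rfl

theorem gram_le (h : Small M E) (x : V → ℝ) :
    ∑ c, ∑ d, (∑ e, x e * xi M c d e) ^ 2 ≤ 3 * (Fintype.card V : ℝ) ^ 2 * ∑ e, x e ^ 2 := by
  classical
  have hN0 : (0 : ℝ) ≤ Fintype.card V := Nat.cast_nonneg _
  have hg1 : ∀ e f c : V, (M e c * M f c) ^ 2 ≤ 1 := by
    intro e f c
    have h1 := abs_mul_le_one (h.sk.abs_le e c) (h.sk.abs_le f c)
    rw [← sq_abs]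
    nlinarith [abs_nonneg (M e c * M f c)]
  have hs1 : ∀ e f : V, 0 ≤ ∑ c, (M e c * M f c) ^ 2 := fun e f =>
    Finset.sum_nonneg fun c _ => sq_nonneg _
  have hs2 : ∀ e f : V, ∑ c, (M e c * M f c) ^ 2 ≤ Fintype.card V := by
    intro e f
    refine (Finset.sum_le_sum fun c _ => hg1 e f c).trans ?_
    simp
  have hdiag : ∀ e : V, ∑ c, ∑ d, xi M c d e * xi M c d e ≤ (Fintype.card V : ℝ) ^ 2 := by
    intro e
    rw [gram_eq h.sk]
    have h1 := abs_pp_le h.sk e e
    have h2 : pp M e e ^ 2 ≤ (Fintype.card V : ℝ) ^ 2 := sq_le_sq' (abs_le.1 h1).1 (abs_le.1 h1).2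
    linarith [hs1 e e]
  have hoff : ∀ e f : V, e ≠ f → |∑ c, ∑ d, xi M c d e * xi M c d f| ≤ Fintype.card V := by
    intro e f hef
    rw [gram_eq h.sk]
    have h1 := h.p e f hef
    have h2 : pp M e f ^ 2 ≤ E ^ 2 := sq_le_sq' (abs_le.1 h1).1 (abs_le.1 h1).2
    have h3 := h.E_sq_le
    rw [abs_le]
    constructor
    · linarith [sq_nonneg (pp M e f), hs2 e f]
    · linarith [hs1 e f]
  have hexp : ∑ c, ∑ d, (∑ e, x e * xi M c d e) ^ 2 =
      ∑ e, ∑ f, x e * x f * ∑ c, ∑ d, xi M c d e * xi M c d f := by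
    have h1 : ∀ c d, (∑ e, x e * xi M c d e) ^ 2 =
        ∑ e, ∑ f, x e * x f * (xi M c d e * xi M c d f) := by
      intro c d
      rw [sq, Finset.sum_mul_sum]
      refine Finset.sum_congr rfl fun e _ => Finset.sum_congr rfl fun f _ => ?_
      ring
    calc ∑ c, ∑ d, (∑ e, x e * xi M c d e) ^ 2
        = ∑ c, ∑ d, ∑ e, ∑ f, x e * x f * (xi M c d e * xi M c d f) :=
          Finset.sum_congr rfl fun c _ => Finset.sum_congr rfl fun d _ => h1 c d
      _ = ∑ c, ∑ e, ∑ d, ∑ f, x e * x f * (xi M c d e * xi M c d f) :=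
          Finset.sum_congr rfl fun c _ => Finset.sum_comm
      _ = ∑ e, ∑ c, ∑ d, ∑ f, x e * x f * (xi M c d e * xi M c d f) := Finset.sum_comm
      _ = ∑ e, ∑ c, ∑ f, ∑ d, x e * x f * (xi M c d e * xi M c d f) :=
          Finset.sum_congr rfl fun e _ => Finset.sum_congr rfl fun c _ => Finset.sum_comm
      _ = ∑ e, ∑ f, ∑ c, ∑ d, x e * x f * (xi M c d e * xi M c d f) :=
          Finset.sum_congr rfl fun e _ => Finset.sum_comm
      _ = ∑ e, ∑ f, x e * x f * ∑ c, ∑ d, xi M c d e * xi M c d f := by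
          refine Finset.sum_congr rfl fun e _ => Finset.sum_congr rfl fun f _ => ?_
          rw [Finset.mul_sum]
          refine Finset.sum_congr rfl fun c _ => ?_
          rw [Finset.mul_sum]
  rw [hexp]
  have hterm : ∀ e f : V, x e * x f * ∑ c, ∑ d, xi M c d e * xi M c d f ≤
      (Fintype.card V : ℝ) / 2 * (x e ^ 2 + x f ^ 2) +
        (if e = f then (Fintype.card V : ℝ) ^ 2 * x e ^ 2 else 0) := by
    intro e f
    by_cases hef : e = f
    · subst hef
      rw [if_pos rfl]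
      have h1 := mul_le_mul_of_nonneg_left (hdiag e) (sq_nonneg (x e))
      have h2 : 0 ≤ (Fintype.card V : ℝ) / 2 * (x e ^ 2 + x e ^ 2) := by positivity
      nlinarith
    · rw [if_neg hef, add_zero]
      have h1 : x e * x f * ∑ c, ∑ d, xi M c d e * xi M c d f ≤
          |x e * x f| * |∑ c, ∑ d, xi M c d e * xi M c d f| := by
        rw [← abs_mul]
        exact le_abs_self _
      have h2 : |x e * x f| * |∑ c, ∑ d, xi M c d e * xi M c d f| ≤
          |x e * x f| * Fintype.card V := mul_le_mul_of_nonneg_left (hoff e f hef) (abs_nonneg _)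
      have h3 : |x e * x f| ≤ (x e ^ 2 + x f ^ 2) / 2 := by
        rw [abs_le]
        constructor <;> nlinarith [sq_nonneg (x e + x f), sq_nonneg (x e - x f)]
      have h4 : |x e * x f| * (Fintype.card V : ℝ) ≤ (x e ^ 2 + x f ^ 2) / 2 * Fintype.card V :=
        mul_le_mul_of_nonneg_right h3 hN0
      linarith
  refine (Finset.sum_le_sum fun e _ => Finset.sum_le_sum fun f _ => hterm e f).trans ?_
  have h5 : ∀ e : V, ∑ f, ((Fintype.card V : ℝ) / 2 * (x e ^ 2 + x f ^ 2) +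
      (if e = f then (Fintype.card V : ℝ) ^ 2 * x e ^ 2 else 0)) =
      (Fintype.card V : ℝ) / 2 * (Fintype.card V * x e ^ 2 + ∑ f, x f ^ 2) +
        (Fintype.card V : ℝ) ^ 2 * x e ^ 2 := by
    intro e
    rw [Finset.sum_add_distrib, Finset.sum_ite_eq Finset.univ e, if_pos (Finset.mem_univ e),
      ← Finset.mul_sum, Finset.sum_add_distrib]
    simp
  rw [Finset.sum_congr rfl fun e _ => h5 e, Finset.sum_add_distrib, ← Finset.mul_sum,
    ← Finset.mul_sum, Finset.sum_add_distrib, ← Finset.mul_sum]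
  have h6 : ∑ _e : V, ∑ f, x f ^ 2 = Fintype.card V * ∑ f, x f ^ 2 := by simp
  rw [h6]
  have h7 : 0 ≤ ∑ e, x e ^ 2 := Finset.sum_nonneg fun e _ => sq_nonneg _
  nlinarith [mul_nonneg (sq_nonneg (Fintype.card V : ℝ)) h7]

end Pool.Agent.Work.MP_40b2ba_co
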