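import Pool.Agent.Work.MP_40b2ba_co.SlotUp

set_option autoImplicit false
set_option linter.unusedSectionVars false

/-!
# Ramsey (size M): elementary facts on `f`

`hasTT_iff`: `List.ofFn` / `List.get`; `List.pairwise_iff_getElem`.
`f_spec`: the set in the definition of `f n` is not empty (by induction `m = 2^n` works: choose a vertex `v`, one of `{z | R v z}`, `{z | R z v}` has at
least `2^n` members for a tournament with `2^(n+1)` vertices, take a transitive list in it and add `v` at the beginning or at the end), so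
`Nat.sInf_mem` gives the property for `m = f n`; for a general finite `V` with `f n ≤ card V` restrict `R` along an injection `Fin (f n) ↪ V`.
`f_le`: if every tournament on `Fin m` has a transitive subtournament with `n` vertices then `f n ≤ m` (`Nat.sInf_le`).
`f_double`: for `n ≥ 1` every tournament on `Fin (2 * f n)` has a vertex (`f n ≥ 1`, `le_f`) with out- or indegree at least `f n`.
`le_f`: `n` distinct vertices are needed (the relation `<` on `Fin (f n)` is a tournament).
`hasTT_slot`: if the slot `i` of the transitive list `l` has at least `f n` members then there is a transitive list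
`l.take i ++ w ++ l.drop i` of length `l.length + n`.
-/

namespace Pool.Agent.Work.MP_40b2ba_co

theorem hasTT_iff {V : Type*} (R : V → V → Prop) (n : ℕ) :
    HasTT R n ↔ ∃ l : List V, l.length = n ∧ l.Pairwise R := by
  constructor
  · rintro ⟨v, hv⟩
    refine ⟨List.ofFn v, List.length_ofFn, ?_⟩
    rw [List.pairwise_ofFn]
    intro i j hij
    exact hv i j hij
  · rintro ⟨l, rfl, hl⟩
    refine ⟨fun i => l.get i, fun i j hij => ?_⟩
    exact List.pairwise_iff_get.1 hl i j hij

theorem f_le (n m : ℕ) (h : ∀ R : Fin m → Fin m → Prop, IsTour R → HasTT R n) : f n ≤ m :=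
  Nat.sInf_le h

private theorem ra_split {V : Type*} [DecidableEq V] {R : V → V → Prop} (hR : IsTour R)
    (S : Finset V) (v : V) (hv : v ∈ S) (m : ℕ) (hm : 2 * m ≤ S.card) (hm0 : 1 ≤ m) :
    (∃ T : Finset V, T ⊆ S ∧ m ≤ T.card ∧ ∀ z ∈ T, R v z) ∨
      (∃ T : Finset V, T ⊆ S ∧ m ≤ T.card ∧ ∀ z ∈ T, R z v) := by
  classical
  have hcov : S.erase v ⊆ (S.filter fun z => R v z) ∪ (S.filter fun z => R z v) := by
    intro z hz
    rw [Finset.mem_erase] at hz
    rw [Finset.mem_union, Finset.mem_filter, Finset.mem_filter]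
    rcases hR.2 v z (Ne.symm hz.1) with ⟨h, _⟩ | ⟨h, _⟩
    · exact Or.inl ⟨hz.2, h⟩
    · exact Or.inr ⟨hz.2, h⟩
  have h1 := (Finset.card_le_card hcov).trans (Finset.card_union_le _ _)
  rw [Finset.card_erase_of_mem hv] at h1
  by_cases h2 : m ≤ (S.filter fun z => R v z).card
  · exact Or.inl ⟨_, Finset.filter_subset _ _, h2, fun z hz => (Finset.mem_filter.1 hz).2⟩
  · exact Or.inr ⟨_, Finset.filter_subset _ _, by omega, fun z hz => (Finset.mem_filter.1 hz).2⟩

private theorem ra_pow {V : Type*} [DecidableEq V] {R : V → V → Prop} (hR : IsTour R) (n : ℕ) :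
    ∀ S : Finset V, 2 ^ n ≤ S.card → ∃ l : List V, l.length = n ∧ l.Pairwise R ∧ ∀ a ∈ l, a ∈ S := by
  induction n with
  | zero => exact fun S _ => ⟨[], rfl, List.Pairwise.nil, fun a ha => absurd ha List.not_mem_nil⟩
  | succ n ih =>
    intro S hS
    have h2 : 1 ≤ 2 ^ n := Nat.one_le_two_pow
    have h3 : 2 ^ (n + 1) = 2 * 2 ^ n := pow_succ' 2 n
    have hne : S.Nonempty := by
      rw [← Finset.card_pos]
      omega
    obtain ⟨v, hv⟩ := hne
    rcases ra_split hR S v hv (2 ^ n) (by omega) h2 with ⟨T, hT, hc, hr⟩ | ⟨T, hT, hc, hr⟩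
    · obtain ⟨l, h4, h5, h6⟩ := ih T hc
      refine ⟨v :: l, by rw [List.length_cons, h4], List.pairwise_cons.2
        ⟨fun a ha => hr a (h6 a ha), h5⟩, fun a ha => ?_⟩
      rcases List.mem_cons.1 ha with rfl | ha
      · exact hv
      · exact hT (h6 a ha)
    · obtain ⟨l, h4, h5, h6⟩ := ih T hc
      refine ⟨l ++ [v], by rw [List.length_append, h4]; rfl, List.pairwise_append.2
        ⟨h5, List.pairwise_singleton _ _, fun a ha b hb => ?_⟩, fun a ha => ?_⟩
      · rw [List.mem_singleton] at hb
        rw [hb]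
        exact hr a (h6 a ha)
      · rcases List.mem_append.1 ha with ha | ha
        · exact hT (h6 a ha)
        · rw [List.mem_singleton] at ha
          rw [ha]
          exact hv

private theorem ra_mem (n : ℕ) : ∀ R : Fin (f n) → Fin (f n) → Prop, IsTour R → HasTT R n := by
  classical
  have hne : {m : ℕ | ∀ R : Fin m → Fin m → Prop, IsTour R → HasTT R n}.Nonempty := by
    refine ⟨2 ^ n, fun R hR => ?_⟩
    obtain ⟨l, h1, h2, _⟩ := ra_pow hR n Finset.univ (by rw [Finset.card_univ, Fintype.card_fin])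
    exact (hasTT_iff R n).2 ⟨l, h1, h2⟩
  exact Nat.sInf_mem hne

theorem f_spec {V : Type*} [Fintype V] {R : V → V → Prop} (hR : IsTour R) (n : ℕ)
    (hV : f n ≤ Fintype.card V) : HasTT R n := by
  classical
  let ι : Fin (f n) → V := fun i => (Fintype.equivFin V).symm (Fin.castLE hV i)
  have hι : Function.Injective ι := by
    intro i j hij
    have h1 := (Fintype.equivFin V).symm.injective hij
    exact Fin.castLE_injective hV h1
  have hR' : IsTour fun i j : Fin (f n) => R (ι i) (ι j) :=
    ⟨fun a => hR.1 _, fun a b hab => hR.2 _ _ fun h => hab (hι h)⟩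
  obtain ⟨v, hv⟩ := ra_mem n _ hR'
  exact ⟨fun i => ι (v i), hv⟩

/-- a transitive list inside a set -/
private theorem ra_sub {V : Type*} [Fintype V] {R : V → V → Prop} (hR : IsTour R) (n : ℕ)
    (S : Set V) (hS : f n ≤ S.ncard) : ∃ l : List V, l.length = n ∧ l.Pairwise R ∧ ∀ a ∈ l, a ∈ S := by
  classical
  have hR' : IsTour fun i j : S => R i j :=
    ⟨fun a => hR.1 _, fun a b hab => hR.2 _ _ fun h => hab (Subtype.ext h)⟩
  have hcard : f n ≤ Fintype.card S := by
    rwa [← Nat.card_eq_fintype_card, Nat.card_coe_set_eq]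
  obtain ⟨l, h1, h2⟩ := (hasTT_iff _ n).1 (f_spec hR' n hcard)
  refine ⟨l.map Subtype.val, by rw [List.length_map, h1], ?_, fun a ha => ?_⟩
  · rw [List.pairwise_map]
    exact h2
  · obtain ⟨b, _, rfl⟩ := List.mem_map.1 ha
    exact b.2

theorem le_f (n : ℕ) : n ≤ f n := by
  have hR : IsTour fun a b : Fin (f n) => a < b := by
    refine ⟨fun a => lt_irrefl a, fun a b hab => ?_⟩
    rcases lt_or_gt_of_ne hab with h | h
    · exact Or.inl ⟨h, not_lt.2 h.le⟩
    · exact Or.inr ⟨h, not_lt.2 h.le⟩
  obtain ⟨v, hv⟩ := ra_mem n _ hR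
  have hinj : Function.Injective v := by
    have : StrictMono v := fun i j hij => hv i j hij
    exact this.injective
  simpa using Fintype.card_le_of_injective v hinj

theorem f_double (n : ℕ) (hn : 1 ≤ n) : f (n + 1) ≤ 2 * f n := by
  classical
  refine f_le _ _ fun R hR => ?_
  have h1 := le_f n
  have hpos : 0 < 2 * f n := by omega
  let v : Fin (2 * f n) := ⟨0, hpos⟩
  rw [hasTT_iff]
  rcases ra_split hR Finset.univ v (Finset.mem_univ v) (f n)
    (by rw [Finset.card_univ, Fintype.card_fin]) (by omega) with ⟨T, _, hc, hr⟩ | ⟨T, _, hc, hr⟩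
  · obtain ⟨l, h4, h5, h6⟩ := ra_sub hR n (T : Set (Fin (2 * f n)))
      (by rwa [Set.ncard_coe_finset])
    exact ⟨v :: l, by rw [List.length_cons, h4], List.pairwise_cons.2
      ⟨fun a ha => hr a (Finset.mem_coe.1 (h6 a ha)), h5⟩⟩
  · obtain ⟨l, h4, h5, h6⟩ := ra_sub hR n (T : Set (Fin (2 * f n)))
      (by rwa [Set.ncard_coe_finset])
    refine ⟨l ++ [v], by rw [List.length_append, h4]; rfl, List.pairwise_append.2
      ⟨h5, List.pairwise_singleton _ _, fun a ha b hb => ?_⟩⟩
    rw [List.mem_singleton] at hb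
    rw [hb]
    exact hr a (Finset.mem_coe.1 (h6 a ha))

theorem hasTT_slot {V : Type*} [Fintype V] {R : V → V → Prop} (hR : IsTour R) (l : List V)
    (hl : l.Pairwise R) (i : ℕ) (n : ℕ) (hn : f n ≤ (slotL R l i).ncard) :
    HasTT R (l.length + n) := by
  obtain ⟨w, h1, h2, h3⟩ := ra_sub hR n _ hn
  rw [hasTT_iff]
  have h0 : (l.take i ++ l.drop i).Pairwise R := by rw [List.take_append_drop]; exact hl
  rw [List.pairwise_append] at h0
  refine ⟨l.take i ++ (w ++ l.drop i), ?_, ?_⟩
  · have h4 : (l.take i).length + (l.drop i).length = l.length := by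
      rw [← List.length_append, List.take_append_drop]
    rw [List.length_append, List.length_append]
    omega
  · rw [List.pairwise_append, List.pairwise_append]
    refine ⟨h0.1, ⟨h2, h0.2.1, fun a ha b hb => (h3 a ha).2 b hb⟩, fun a ha b hb => ?_⟩
    rcases List.mem_append.1 hb with hb | hb
    · exact (h3 b hb).1 a ha
    · exact h0.2.2 a ha b hb

end Pool.Agent.Work.MP_40b2ba_co
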