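import Pool.Agent.Work.MP_40b2ba_co.Core
import Pool.Agent.Work.MP_40b2ba_co.Bounds
import Pool.Agent.Work.MP_40b2ba_co.Ramsey

set_option autoImplicit false
set_option linter.unusedSectionVars false

/-!
# Main (size M): the theorem

`big_slot`: `c = 1 / 10^6`, `N₀ = 10^13`: with `D = √N / 10^6 ≥ 1` we have `40000 * (2400 D)² = 2.304 * 10^11 * D² ≤ N`; if all slots of transitive lists of
length 4 had at most `N / 16 + D` members then `small_of_slots` and `not_small` give a contradiction.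
`f_four`: let `F = f n ≥ n` (`le_f`) be large and `m` natural with `16 F - c' √F ≤ m`, e.g. `m = ⌈16 F - c' √F⌉` or `16 F - ⌊c' √F⌋`, `c'` small: every tournament on
`Fin m` has a transitive list of length 4 with a slot of size `> m / 16 + c √m ≥ F` (as `√m ≥ √F`, `c' / 16 ≤ c`), so `HasTT (4 + n)` by
`hasTT_slot`; `f (n+4) ≤ m`.
`main_f`: `f (n+k) ≤ 2^(k-4) f (n+4)` by `f_double`.
-/

namespace Pool.Agent.Work.MP_40b2ba_co

theorem big_slot : ∃ c : ℝ, 0 < c ∧ ∃ N₀ : ℕ, ∀ (V : Type) [Fintype V] (R : V → V → Prop), IsTour R →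
    N₀ ≤ Fintype.card V → ∃ l : List V, l.Pairwise R ∧ l.length = 4 ∧ ∃ i ≤ 4,
      (Fintype.card V : ℝ) / 16 + c * √(Fintype.card V) ≤ (slotL R l i).ncard := by
  refine ⟨1 / 10 ^ 6, by norm_num, 10 ^ 13, fun V _ R hR hN => ?_⟩
  by_contra hcon
  push Not at hcon
  set N : ℝ := (Fintype.card V : ℝ) with hNdef
  have hN' : (10 : ℝ) ^ 13 ≤ N := by
    have h1 : ((10 ^ 13 : ℕ) : ℝ) ≤ ((Fintype.card V : ℕ) : ℝ) := Nat.cast_le.2 hN
    rw [Nat.cast_pow, Nat.cast_ofNat] at h1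
    exact h1
  have hN0 : 0 ≤ N := by positivity
  have hs : (10 : ℝ) ^ 6 ≤ √N := by
    apply Real.le_sqrt_of_sq_le
    calc ((10 : ℝ) ^ 6) ^ 2 ≤ 10 ^ 13 := by norm_num
      _ ≤ N := hN'
  have hsq : √N ^ 2 = N := Real.sq_sqrt hN0
  have hD1 : 1 ≤ √N / 10 ^ 6 := by
    rw [le_div_iff₀ (by norm_num)]
    linarith
  have hD2 : 40000 * (2400 * (√N / 10 ^ 6)) ^ 2 ≤ N := by
    have h1 : 40000 * (2400 * (√N / 10 ^ 6)) ^ 2 = (2304 / 10000) * √N ^ 2 := by ring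
    rw [h1, hsq]
    linarith
  refine not_small (small_of_slots hR (√N / 10 ^ 6) hD1 hD2 fun l hl h4 i hi => ?_)
  have h2 := hcon l hl h4 i (h4 ▸ hi)
  have h3 : N / 16 + √N / 10 ^ 6 = N / 16 + 1 / 10 ^ 6 * √N := by ring
  rw [h3]
  exact h2.le

theorem f_four : ∃ c : ℝ, 0 < c ∧ ∃ n₀ : ℕ, ∀ n ≥ n₀, (f (n + 4) : ℝ) ≤ 16 * (f n - c * √(f n)) := by
  obtain ⟨c₀, hc₀, N₀, hbig⟩ := big_slot
  set c₁ : ℝ := min (16 * c₀) 1 with hc₁
  have hc1 : 0 < c₁ := lt_min (by linarith) one_pos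
  have hc1' : c₁ ≤ 16 * c₀ := min_le_left _ _
  have hc1'' : c₁ ≤ 1 := min_le_right _ _
  refine ⟨c₁ / 32, by positivity, max (max N₀ 1) ⌈(2 / c₁) ^ 2⌉₊, fun n hn => ?_⟩
  have hn1 : N₀ ≤ n := le_trans (le_trans (le_max_left _ _) (le_max_left _ _)) hn
  have hn2 : 1 ≤ n := le_trans (le_trans (le_max_right _ _) (le_max_left _ _)) hn
  have hn3 : ⌈(2 / c₁) ^ 2⌉₊ ≤ n := le_trans (le_max_right _ _) hn
  have hnf := le_f n
  set F : ℝ := (f n : ℝ) with hF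
  have hF1 : (1 : ℝ) ≤ F := by
    have h0 : 1 ≤ f n := le_trans hn2 hnf
    have h1 : ((1 : ℕ) : ℝ) ≤ (f n : ℝ) := Nat.cast_le.2 h0
    rw [Nat.cast_one] at h1
    exact h1
  have hF0 : 0 ≤ F := by linarith
  have hF2 : (2 / c₁) ^ 2 ≤ F := by
    have h1 := Nat.le_ceil ((2 / c₁) ^ 2)
    have h2 : ((⌈(2 / c₁) ^ 2⌉₊ : ℕ) : ℝ) ≤ F := Nat.cast_le.2 (hn3.trans hnf)
    linarith
  have hs : 2 / c₁ ≤ √F := Real.le_sqrt_of_sq_le hF2
  have hs1 : 1 ≤ √F := Real.one_le_sqrt.2 hF1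
  have hsF : √F ≤ F := by
    have h1 := Real.sq_sqrt hF0
    nlinarith
  have hs2 : 2 ≤ c₁ * √F := by
    rw [div_le_iff₀ hc1] at hs
    linarith
  have hpos : 0 ≤ 16 * F - c₁ * √F := by nlinarith
  set m : ℕ := ⌈16 * F - c₁ * √F⌉₊ with hm
  have hm1 : 16 * F - c₁ * √F ≤ m := Nat.le_ceil _
  have hm2 : (m : ℝ) ≤ 16 * F - c₁ * √F + 1 := (Nat.ceil_lt_add_one hpos).le
  have hFm : F ≤ m := by nlinarith
  have hNm : N₀ ≤ m := by
    have h1 : f n ≤ m := (Nat.cast_le (α := ℝ)).1 hFm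
    omega
  have hle : f (n + 4) ≤ m := by
    refine f_le (n + 4) m fun R hR => ?_
    obtain ⟨l, hl, h4, i, hi, hsl⟩ := hbig (Fin m) R hR (by rw [Fintype.card_fin]; exact hNm)
    rw [Fintype.card_fin] at hsl
    have hsm : √F ≤ √(m : ℝ) := Real.sqrt_le_sqrt hFm
    have h5 : F ≤ ((slotL R l i).ncard : ℝ) := by
      refine le_trans ?_ hsl
      have h6 : c₀ * √F ≤ c₀ * √(m : ℝ) := mul_le_mul_of_nonneg_left hsm hc₀.le
      have h7 : c₁ * √F ≤ 16 * c₀ * √F := mul_le_mul_of_nonneg_right hc1' (Real.sqrt_nonneg _)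
      linarith
    have h6 : f n ≤ (slotL R l i).ncard := (Nat.cast_le (α := ℝ)).1 h5
    have h7 := hasTT_slot hR l hl i n h6
    rw [h4, add_comm] at h7
    exact h7
  calc (f (n + 4) : ℝ) ≤ m := by exact_mod_cast hle
    _ ≤ 16 * F - c₁ * √F + 1 := hm2
    _ ≤ 16 * (F - c₁ / 32 * √F) := by linarith

theorem main_f : ∃ c : ℝ, 0 < c ∧ ∃ n₀ : ℕ, ∀ n ≥ n₀, ∀ k ≥ 4,
    (f (n + k) : ℝ) ≤ 2 ^ k * (f n - c * √(f n)) := by
  obtain ⟨c, hc, n₀, h⟩ := f_four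
  refine ⟨c, hc, n₀, fun n hn k hk => ?_⟩
  induction k, hk using Nat.le_induction with
  | base =>
    have := h n hn
    norm_num
    exact this
  | succ k hk ih =>
    have h1 : f (n + k + 1) ≤ 2 * f (n + k) := f_double (n + k) (by omega)
    have h2 : (f (n + k + 1) : ℝ) ≤ 2 * f (n + k) := by exact_mod_cast h1
    calc (f (n + (k + 1)) : ℝ) ≤ 2 * f (n + k) := h2
      _ ≤ 2 * (2 ^ k * (f n - c * √(f n))) := by linarith
      _ = 2 ^ (k + 1) * (f n - c * √(f n)) := by ring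

end Pool.Agent.Work.MP_40b2ba_co
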