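import Pool.Agent.Work.MP_40b2ba_co.Basic

set_option autoImplicit false
set_option linter.unusedSectionVars false

/-!
# Mat (size M): slot sizes and correlations

`mat R a b = 1` if `R a b`, `-1` if `R b a`, `0` otherwise.  `mat_sk`: a tournament gives `Sk`.
`slot_sum`: for a transitive list `l` (`l.Pairwise R`) and `i ≤ l.length`, with `k = l.length`:
`∑_z ∏_{a ∈ l.take i} (1 + M a z) * ∏_{a ∈ l.drop i} (1 - M a z) ≤ 2^k * #slot + k * 2^(k-1)`.  For `z ∉ l`: if `z` is in the slot then all factors are `2`; otherwise
some factor is `0`.  For `z ∈ l` all factors are in `[0, 2]` and one of them is `1`, so the product is at most `2^(k-1)`, and `l` has `k` members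
(for `k = 0` the statement is `N ≤ N`).  `1 - M a z = 1 + M z a`.
`sum_prod`: expand the product and use `Finset.sum_add_distrib`, `Finset.mul_sum`.
-/

namespace Pool.Agent.Work.MP_40b2ba_co

open scoped Classical in
/-- the skew matrix of a relation -/
noncomputable def mat {V : Type*} (R : V → V → Prop) (a b : V) : ℝ :=
  if R a b then 1 else if R b a then -1 else 0

variable {V : Type*} {R : V → V → Prop}

theorem mat_eq_one (hR : IsTour R) {a b : V} : mat R a b = 1 ↔ R a b := by
  unfold mat
  constructor
  · intro h
    by_contra hab
    rw [if_neg hab] at h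
    split_ifs at h <;> norm_num at h
  · intro h
    rw [if_pos h]

theorem mat_eq_neg (hR : IsTour R) {a b : V} : mat R a b = -1 ↔ R b a := by
  unfold mat
  constructor
  · intro h
    split_ifs at h with h1 h2
    · norm_num at h
    · exact h2
    · norm_num at h
  · intro h
    have hne : b ≠ a := by
      rintro rfl
      exact hR.1 _ h
    have h1 : ¬ R a b := by
      rcases hR.2 b a hne with h2 | h2
      · exact h2.2
      · exact absurd h h2.2
    rw [if_neg h1, if_pos h]

theorem mat_sk (hR : IsTour R) : Sk (mat R) := by
  constructor
  · intro a b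
    by_cases hab : a = b
    · subst hab
      have h1 : mat R a a = 0 := by
        unfold mat
        rw [if_neg (hR.1 a), if_neg (hR.1 a)]
      rw [h1]
      norm_num
    · rcases hR.2 a b hab with h | h
      · rw [(mat_eq_one hR).2 h.1, (mat_eq_neg hR (a := b) (b := a)).2 h.1]
        norm_num
      · rw [(mat_eq_neg hR (a := a) (b := b)).2 h.1, (mat_eq_one hR).2 h.1]
  · intro a b hab
    rcases hR.2 a b hab with h | h
    · rw [(mat_eq_one hR).2 h.1]
      norm_num
    · rw [(mat_eq_neg hR (a := a) (b := b)).2 h.1]
      norm_num

private theorem prod_bd (L : List ℝ) (hL : ∀ x ∈ L, 0 ≤ x ∧ x ≤ 2) :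
    0 ≤ L.prod ∧ L.prod ≤ 2 ^ L.length := by
  induction L with
  | nil => simp
  | cons x L ih =>
    have h1 := hL x (by simp)
    have h2 := ih fun y hy => hL y (by simp [hy])
    rw [List.prod_cons, List.length_cons, pow_succ]
    refine ⟨mul_nonneg h1.1 h2.1, ?_⟩
    have h3 : (0 : ℝ) ≤ 2 ^ L.length := by positivity
    nlinarith [h1.1, h1.2, h2.1, h2.2]

private theorem prod_bd_one (L : List ℝ) (hL : ∀ x ∈ L, 0 ≤ x ∧ x ≤ 2) (h1 : (1 : ℝ) ∈ L) :
    L.prod ≤ 2 ^ (L.length - 1) := by
  induction L with
  | nil => simp at h1
  | cons x L ih =>
    have hx := hL x (by simp)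
    have hb := prod_bd L fun y hy => hL y (by simp [hy])
    rw [List.prod_cons, List.length_cons, Nat.add_sub_cancel]
    rcases List.mem_cons.1 h1 with h | h
    · rw [← h, one_mul]
      exact hb.2
    · have h2 := ih (fun y hy => hL y (by simp [hy])) h
      have hlen : 0 < L.length := List.length_pos_of_mem h
      have h3 : (2 : ℝ) ^ L.length = 2 * 2 ^ (L.length - 1) := by
        rw [← pow_succ']
        congr 1
        omega
      rw [h3]
      have h4 : (0 : ℝ) ≤ 2 ^ (L.length - 1) := by positivity
      nlinarith [hx.1, hx.2, hb.1]

variable [Fintype V]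

theorem slot_sum (hR : IsTour R) (l : List V) (hl : l.Pairwise R) (i : ℕ) (hi : i ≤ l.length) :
    ∑ z, ((l.take i).map fun a => 1 + mat R a z).prod * ((l.drop i).map fun a => 1 - mat R a z).prod ≤
      2 ^ l.length * ((slotL R l i).ncard : ℝ) + l.length * 2 ^ (l.length - 1) := by
  classical
  have hS := mat_sk hR
  have key : ∀ z, ((l.take i).map fun a => 1 + mat R a z).prod *
      ((l.drop i).map fun a => 1 - mat R a z).prod ≤
      (if z ∈ slotL R l i then (2 : ℝ) ^ l.length else 0) +
        (if z ∈ l.toFinset then (2 : ℝ) ^ (l.length - 1) else 0) := by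
    intro z
    set L : List ℝ := ((l.take i).map fun a => 1 + mat R a z) ++ ((l.drop i).map fun a => 1 - mat R a z)
      with hLdef
    have hprod : ((l.take i).map fun a => 1 + mat R a z).prod *
      ((l.drop i).map fun a => 1 - mat R a z).prod = L.prod := by
      rw [hLdef, List.prod_append]
    have hlen : L.length = l.length := by
      rw [hLdef, List.length_append, List.length_map, List.length_map, List.length_take,
        List.length_drop]
      omega
    have hL : ∀ x ∈ L, 0 ≤ x ∧ x ≤ 2 := by
      intro x hx
      rw [hLdef, List.mem_append] at hx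
      rcases hx with hx | hx
      · obtain ⟨a, _, rfl⟩ := List.mem_map.1 hx
        have := abs_le.1 (hS.abs_le a z)
        constructor <;> linarith [this.1, this.2]
      · obtain ⟨a, _, rfl⟩ := List.mem_map.1 hx
        have := abs_le.1 (hS.abs_le a z)
        constructor <;> linarith [this.1, this.2]
    rw [hprod]
    by_cases hz : z ∈ l
    · have h1 : (1 : ℝ) ∈ L := by
        rw [← List.take_append_drop i l, List.mem_append] at hz
        rw [hLdef, List.mem_append]
        rcases hz with hz | hz
        · left
          refine List.mem_map.2 ⟨z, hz, ?_⟩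
          rw [hS.self]
          norm_num
        · right
          refine List.mem_map.2 ⟨z, hz, ?_⟩
          rw [hS.self]
          norm_num
      have h2 := prod_bd_one L hL h1
      rw [hlen] at h2
      rw [if_pos (List.mem_toFinset.2 hz)]
      have h3 : (0 : ℝ) ≤ (if z ∈ slotL R l i then (2 : ℝ) ^ l.length else 0) := by
        split_ifs
        · positivity
        · exact le_refl 0
      linarith
    · rw [if_neg (fun h => hz (List.mem_toFinset.1 h)), add_zero]
      by_cases hs : z ∈ slotL R l i
      · rw [if_pos hs, ← hlen]
        exact (prod_bd L hL).2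
      · rw [if_neg hs]
        have h0 : (0 : ℝ) ∈ L := by
          by_contra hno
          apply hs
          rw [hLdef, List.mem_append, not_or] at hno
          refine ⟨fun a ha => ?_, fun a ha => ?_⟩
          · have haz : a ≠ z := by
              rintro rfl
              exact hz (List.mem_of_mem_take ha)
            rcases hS.cases haz with h | h
            · exact (mat_eq_one hR).1 h
            · exfalso
              apply hno.1
              refine List.mem_map.2 ⟨a, ha, ?_⟩
              rw [h]
              norm_num
          · have haz : a ≠ z := by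
              rintro rfl
              exact hz (List.mem_of_mem_drop ha)
            rcases hS.cases haz with h | h
            · exfalso
              apply hno.2
              refine List.mem_map.2 ⟨a, ha, ?_⟩
              rw [h]
              norm_num
            · exact (mat_eq_neg hR).1 h
        rw [List.prod_eq_zero h0]
  refine (Finset.sum_le_sum fun z _ => key z).trans ?_
  rw [Finset.sum_add_distrib]
  have h1 : ∑ z : V, (if z ∈ slotL R l i then (2 : ℝ) ^ l.length else 0) =
      2 ^ l.length * ((slotL R l i).ncard : ℝ) := by
    rw [← Finset.sum_filter, Finset.sum_const, nsmul_eq_mul, mul_comm]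
    congr 2
    rw [← Set.ncard_coe_finset]
    congr 1
    ext z
    simp
  have h2 : ∑ z : V, (if z ∈ l.toFinset then (2 : ℝ) ^ (l.length - 1) else 0) ≤
      l.length * 2 ^ (l.length - 1) := by
    rw [← Finset.sum_filter, Finset.sum_const, nsmul_eq_mul]
    refine mul_le_mul_of_nonneg_right ?_ (by positivity)
    have h3 : (Finset.univ.filter fun z => z ∈ l.toFinset) = l.toFinset := by
      ext z
      simp
    rw [h3]
    exact_mod_cast l.toFinset_card_le
  linarith

theorem sum_prod (M : V → V → ℝ) (a b c d : V) (s t u v : ℝ) :
    ∑ z, (1 + s * M a z) * (1 + t * M b z) * (1 + u * M c z) * (1 + v * M d z) =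
      Fintype.card V + s * rr M a + t * rr M b + u * rr M c + v * rr M d +
        s * t * pp M a b + s * u * pp M a c + s * v * pp M a d + t * u * pp M b c + t * v * pp M b d +
        u * v * pp M c d + s * t * u * ta M a b c + s * t * v * ta M a b d + s * u * v * ta M a c d +
        t * u * v * ta M b c d + s * t * u * v * ka M a b c d := by
  have hN : (Fintype.card V : ℝ) = ∑ z : V, (1 : ℝ) := by simp
  rw [hN]
  simp only [rr, pp, ta, ka, Finset.mul_sum, ← Finset.sum_add_distrib]
  refine Finset.sum_congr rfl fun z _ => ?_
  ring

end Pool.Agent.Work.MP_40b2ba_co
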