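import Pool.Agent.Work.MP_40b2ba_co.Basic

set_option autoImplicit false
set_option linter.unusedSectionVars false

/-!
# Point (size S-M): the pointwise inequality for distinct vertices

For distinct `a b c d` the six entries `M a b`, `M a c`, `M a d`, `M b c`, `M b d`, `M c d` are `± 1` (`Sk.cases`), the others (`M c a` in
`cy`, ...) are their negatives (`Sk.skew`).  In each of the 64 cases `3 - QQ - WW` is `0` or `8`; it is `8` exactly in the 24 cases where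
`{a,b,c,d}` is transitive, and then `|ka a b c d| ≤ E` by `Small.k` for the transitive order of the four vertices and the symmetry of `ka`
(`ka_12`, `ka_23`, `ka_34`).  (Values: transitive `QQ = -1`, `WW = -4`; strong `QQ = -1`, `WW = 4`; one cyclic triple: `QQ = 3`, `WW = 0`.)
Suggestion: first the numeric lemma with real variables `x1 .. x6` equal to `± 1`.
`deg_le`: `|3 - QQ - WW| ≤ 3 + 3 + 12` as all entries have absolute value at most one.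
-/

namespace Pool.Agent.Work.MP_40b2ba_co

variable {V : Type*} [Fintype V] {M : V → V → ℝ} {E : ℝ}

private theorem pt_num (x1 x2 x3 x4 x5 x6 : ℝ) (h1 : x1 = 1 ∨ x1 = -1) (h2 : x2 = 1 ∨ x2 = -1)
    (h3 : x3 = 1 ∨ x3 = -1) (h4 : x4 = 1 ∨ x4 = -1) (h5 : x5 = 1 ∨ x5 = -1)
    (h6 : x6 = 1 ∨ x6 = -1) (P : Prop) (y : ℝ)
    (hy : y = 3 - (-(x1 * x6 * (x2 * x5)) - x2 * x5 * (x3 * x4) + x1 * x6 * (x3 * x4)) -
      ((x1 * x4 - x4 * x2 - x2 * x1) + (x1 * x5 - x5 * x3 - x3 * x1) +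
        (x2 * x6 - x6 * x3 - x3 * x2) + (x4 * x6 - x6 * x5 - x5 * x4)))
    (k0 : x1 = 1 → x2 = 1 → x3 = 1 → x4 = 1 → x5 = 1 → x6 = 1 → P)
    (k1 : x1 = 1 → x2 = 1 → x3 = 1 → x4 = 1 → x5 = 1 → x6 = -1 → P)
    (k2 : x1 = 1 → x2 = 1 → x3 = 1 → x4 = -1 → x5 = 1 → x6 = 1 → P)
    (k3 : x1 = 1 → x2 = 1 → x3 = 1 → x4 = -1 → x5 = -1 → x6 = 1 → P)
    (k4 : x1 = 1 → x2 = 1 → x3 = 1 → x4 = 1 → x5 = -1 → x6 = -1 → P)
    (k5 : x1 = 1 → x2 = 1 → x3 = 1 → x4 = -1 → x5 = -1 → x6 = -1 → P)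
    (k6 : x1 = -1 → x2 = 1 → x3 = 1 → x4 = 1 → x5 = 1 → x6 = 1 → P)
    (k7 : x1 = -1 → x2 = 1 → x3 = 1 → x4 = 1 → x5 = 1 → x6 = -1 → P)
    (k8 : x1 = -1 → x2 = -1 → x3 = 1 → x4 = 1 → x5 = 1 → x6 = 1 → P)
    (k9 : x1 = -1 → x2 = -1 → x3 = -1 → x4 = 1 → x5 = 1 → x6 = 1 → P)
    (k10 : x1 = -1 → x2 = 1 → x3 = -1 → x4 = 1 → x5 = 1 → x6 = -1 → P)
    (k11 : x1 = -1 → x2 = -1 → x3 = -1 → x4 = 1 → x5 = 1 → x6 = -1 → P)
    (k12 : x1 = 1 → x2 = -1 → x3 = 1 → x4 = -1 → x5 = 1 → x6 = 1 → P)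
    (k13 : x1 = 1 → x2 = -1 → x3 = 1 → x4 = -1 → x5 = -1 → x6 = 1 → P)
    (k14 : x1 = -1 → x2 = -1 → x3 = 1 → x4 = -1 → x5 = 1 → x6 = 1 → P)
    (k15 : x1 = -1 → x2 = -1 → x3 = -1 → x4 = -1 → x5 = 1 → x6 = 1 → P)
    (k16 : x1 = 1 → x2 = -1 → x3 = -1 → x4 = -1 → x5 = -1 → x6 = 1 → P)
    (k17 : x1 = -1 → x2 = -1 → x3 = -1 → x4 = -1 → x5 = -1 → x6 = 1 → P)
    (k18 : x1 = 1 → x2 = 1 → x3 = -1 → x4 = 1 → x5 = -1 → x6 = -1 → P)
    (k19 : x1 = 1 → x2 = 1 → x3 = -1 → x4 = -1 → x5 = -1 → x6 = -1 → P)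
    (k20 : x1 = -1 → x2 = 1 → x3 = -1 → x4 = 1 → x5 = -1 → x6 = -1 → P)
    (k21 : x1 = -1 → x2 = -1 → x3 = -1 → x4 = 1 → x5 = -1 → x6 = -1 → P)
    (k22 : x1 = 1 → x2 = -1 → x3 = -1 → x4 = -1 → x5 = -1 → x6 = -1 → P)
    (k23 : x1 = -1 → x2 = -1 → x3 = -1 → x4 = -1 → x5 = -1 → x6 = -1 → P)
    : y = 0 ∨ (y = 8 ∧ P) := by
  rcases h1 with rfl | rfl <;> rcases h2 with rfl | rfl <;> rcases h3 with rfl | rfl <;>
    rcases h4 with rfl | rfl <;> rcases h5 with rfl | rfl <;> rcases h6 with rfl | rfl <;>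
    first
    | (refine Or.inl ?_; rw [hy]; norm_num; done)
    | (refine Or.inr ⟨?_, k0 rfl rfl rfl rfl rfl rfl⟩; rw [hy]; norm_num; done)
    | (refine Or.inr ⟨?_, k1 rfl rfl rfl rfl rfl rfl⟩; rw [hy]; norm_num; done)
    | (refine Or.inr ⟨?_, k2 rfl rfl rfl rfl rfl rfl⟩; rw [hy]; norm_num; done)
    | (refine Or.inr ⟨?_, k3 rfl rfl rfl rfl rfl rfl⟩; rw [hy]; norm_num; done)
    | (refine Or.inr ⟨?_, k4 rfl rfl rfl rfl rfl rfl⟩; rw [hy]; norm_num; done)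
    | (refine Or.inr ⟨?_, k5 rfl rfl rfl rfl rfl rfl⟩; rw [hy]; norm_num; done)
    | (refine Or.inr ⟨?_, k6 rfl rfl rfl rfl rfl rfl⟩; rw [hy]; norm_num; done)
    | (refine Or.inr ⟨?_, k7 rfl rfl rfl rfl rfl rfl⟩; rw [hy]; norm_num; done)
    | (refine Or.inr ⟨?_, k8 rfl rfl rfl rfl rfl rfl⟩; rw [hy]; norm_num; done)
    | (refine Or.inr ⟨?_, k9 rfl rfl rfl rfl rfl rfl⟩; rw [hy]; norm_num; done)
    | (refine Or.inr ⟨?_, k10 rfl rfl rfl rfl rfl rfl⟩; rw [hy]; norm_num; done)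
    | (refine Or.inr ⟨?_, k11 rfl rfl rfl rfl rfl rfl⟩; rw [hy]; norm_num; done)
    | (refine Or.inr ⟨?_, k12 rfl rfl rfl rfl rfl rfl⟩; rw [hy]; norm_num; done)
    | (refine Or.inr ⟨?_, k13 rfl rfl rfl rfl rfl rfl⟩; rw [hy]; norm_num; done)
    | (refine Or.inr ⟨?_, k14 rfl rfl rfl rfl rfl rfl⟩; rw [hy]; norm_num; done)
    | (refine Or.inr ⟨?_, k15 rfl rfl rfl rfl rfl rfl⟩; rw [hy]; norm_num; done)
    | (refine Or.inr ⟨?_, k16 rfl rfl rfl rfl rfl rfl⟩; rw [hy]; norm_num; done)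
    | (refine Or.inr ⟨?_, k17 rfl rfl rfl rfl rfl rfl⟩; rw [hy]; norm_num; done)
    | (refine Or.inr ⟨?_, k18 rfl rfl rfl rfl rfl rfl⟩; rw [hy]; norm_num; done)
    | (refine Or.inr ⟨?_, k19 rfl rfl rfl rfl rfl rfl⟩; rw [hy]; norm_num; done)
    | (refine Or.inr ⟨?_, k20 rfl rfl rfl rfl rfl rfl⟩; rw [hy]; norm_num; done)
    | (refine Or.inr ⟨?_, k21 rfl rfl rfl rfl rfl rfl⟩; rw [hy]; norm_num; done)
    | (refine Or.inr ⟨?_, k22 rfl rfl rfl rfl rfl rfl⟩; rw [hy]; norm_num; done)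
    | (refine Or.inr ⟨?_, k23 rfl rfl rfl rfl rfl rfl⟩; rw [hy]; norm_num; done)

private theorem pt_k (h : Small M E) {a b c d p q s t : V}
    (e : ∀ z, M p z * M q z * M s z * M t z = M a z * M b z * M c z * M d z)
    (h1 : M p q = 1) (h2 : M p s = 1) (h3 : M p t = 1) (h4 : M q s = 1) (h5 : M q t = 1)
    (h6 : M s t = 1) : |ka M a b c d| ≤ E := by
  have h7 : ka M p q s t = ka M a b c d := Finset.sum_congr rfl fun z _ => e z
  rw [← h7]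
  exact h.k p q s t h1 h2 h3 h4 h5 h6

private theorem pt_neg (h : Sk M) {a b : V} (hab : M a b = -1) : M b a = 1 := by
  rw [h.skew b a, hab, neg_neg]

theorem point_le (h : Small M E) {a b c d : V} (hab : a ≠ b) (hac : a ≠ c) (had : a ≠ d) (hbc : b ≠ c)
    (hbd : b ≠ d) (hcd : c ≠ d) :
    ka M a b c d ^ 2 * (3 - QQ M a b c d - WW M a b c d) ≤ 8 * E ^ 2 := by
  have hE := h.one
  have hy : 3 - QQ M a b c d - WW M a b c d =
      3 - (-(M a b * M c d * (M a c * M b d)) - M a c * M b d * (M a d * M b c) +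
        M a b * M c d * (M a d * M b c)) -
      ((M a b * M b c - M b c * M a c - M a c * M a b) + (M a b * M b d - M b d * M a d - M a d * M a b) +
        (M a c * M c d - M c d * M a d - M a d * M a c) +
        (M b c * M c d - M c d * M b d - M b d * M b c)) := by
    rw [QQ, WW, cy, cy, cy, cy, h.sk.skew c a, h.sk.skew d a, h.sk.skew d b]
    ring
  have key := pt_num (M a b) (M a c) (M a d) (M b c) (M b d) (M c d) (h.sk.cases hab)
    (h.sk.cases hac) (h.sk.cases had) (h.sk.cases hbc) (h.sk.cases hbd) (h.sk.cases hcd)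
    (|ka M a b c d| ≤ E) _ hy
    (fun g1 g2 g3 g4 g5 g6 => pt_k (p := a) (q := b) (s := c) (t := d) h (fun z => by ring)
      g1 g2 g3 g4 g5 g6)
    (fun g1 g2 g3 g4 g5 g6 => pt_k (p := a) (q := b) (s := d) (t := c) h (fun z => by ring)
      g1 g3 g2 g5 g4 (pt_neg h.sk g6))
    (fun g1 g2 g3 g4 g5 g6 => pt_k (p := a) (q := c) (s := b) (t := d) h (fun z => by ring)
      g2 g1 g3 (pt_neg h.sk g4) g6 g5)
    (fun g1 g2 g3 g4 g5 g6 => pt_k (p := a) (q := c) (s := d) (t := b) h (fun z => by ring)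
      g2 g3 g1 g6 (pt_neg h.sk g4) (pt_neg h.sk g5))
    (fun g1 g2 g3 g4 g5 g6 => pt_k (p := a) (q := d) (s := b) (t := c) h (fun z => by ring)
      g3 g1 g2 (pt_neg h.sk g5) (pt_neg h.sk g6) g4)
    (fun g1 g2 g3 g4 g5 g6 => pt_k (p := a) (q := d) (s := c) (t := b) h (fun z => by ring)
      g3 g2 g1 (pt_neg h.sk g6) (pt_neg h.sk g5) (pt_neg h.sk g4))
    (fun g1 g2 g3 g4 g5 g6 => pt_k (p := b) (q := a) (s := c) (t := d) h (fun z => by ring)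
      (pt_neg h.sk g1) g4 g5 g2 g3 g6)
    (fun g1 g2 g3 g4 g5 g6 => pt_k (p := b) (q := a) (s := d) (t := c) h (fun z => by ring)
      (pt_neg h.sk g1) g5 g4 g3 g2 (pt_neg h.sk g6))
    (fun g1 g2 g3 g4 g5 g6 => pt_k (p := b) (q := c) (s := a) (t := d) h (fun z => by ring)
      g4 (pt_neg h.sk g1) g5 (pt_neg h.sk g2) g6 g3)
    (fun g1 g2 g3 g4 g5 g6 => pt_k (p := b) (q := c) (s := d) (t := a) h (fun z => by ring)
      g4 g5 (pt_neg h.sk g1) g6 (pt_neg h.sk g2) (pt_neg h.sk g3))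
    (fun g1 g2 g3 g4 g5 g6 => pt_k (p := b) (q := d) (s := a) (t := c) h (fun z => by ring)
      g5 (pt_neg h.sk g1) g4 (pt_neg h.sk g3) (pt_neg h.sk g6) g2)
    (fun g1 g2 g3 g4 g5 g6 => pt_k (p := b) (q := d) (s := c) (t := a) h (fun z => by ring)
      g5 g4 (pt_neg h.sk g1) (pt_neg h.sk g6) (pt_neg h.sk g3) (pt_neg h.sk g2))
    (fun g1 g2 g3 g4 g5 g6 => pt_k (p := c) (q := a) (s := b) (t := d) h (fun z => by ring)
      (pt_neg h.sk g2) (pt_neg h.sk g4) g6 g1 g3 g5)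
    (fun g1 g2 g3 g4 g5 g6 => pt_k (p := c) (q := a) (s := d) (t := b) h (fun z => by ring)
      (pt_neg h.sk g2) g6 (pt_neg h.sk g4) g3 g1 (pt_neg h.sk g5))
    (fun g1 g2 g3 g4 g5 g6 => pt_k (p := c) (q := b) (s := a) (t := d) h (fun z => by ring)
      (pt_neg h.sk g4) (pt_neg h.sk g2) g6 (pt_neg h.sk g1) g5 g3)
    (fun g1 g2 g3 g4 g5 g6 => pt_k (p := c) (q := b) (s := d) (t := a) h (fun z => by ring)
      (pt_neg h.sk g4) g6 (pt_neg h.sk g2) g5 (pt_neg h.sk g1) (pt_neg h.sk g3))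
    (fun g1 g2 g3 g4 g5 g6 => pt_k (p := c) (q := d) (s := a) (t := b) h (fun z => by ring)
      g6 (pt_neg h.sk g2) (pt_neg h.sk g4) (pt_neg h.sk g3) (pt_neg h.sk g5) g1)
    (fun g1 g2 g3 g4 g5 g6 => pt_k (p := c) (q := d) (s := b) (t := a) h (fun z => by ring)
      g6 (pt_neg h.sk g4) (pt_neg h.sk g2) (pt_neg h.sk g5) (pt_neg h.sk g3) (pt_neg h.sk g1))
    (fun g1 g2 g3 g4 g5 g6 => pt_k (p := d) (q := a) (s := b) (t := c) h (fun z => by ring)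
      (pt_neg h.sk g3) (pt_neg h.sk g5) (pt_neg h.sk g6) g1 g2 g4)
    (fun g1 g2 g3 g4 g5 g6 => pt_k (p := d) (q := a) (s := c) (t := b) h (fun z => by ring)
      (pt_neg h.sk g3) (pt_neg h.sk g6) (pt_neg h.sk g5) g2 g1 (pt_neg h.sk g4))
    (fun g1 g2 g3 g4 g5 g6 => pt_k (p := d) (q := b) (s := a) (t := c) h (fun z => by ring)
      (pt_neg h.sk g5) (pt_neg h.sk g3) (pt_neg h.sk g6) (pt_neg h.sk g1) g4 g2)
    (fun g1 g2 g3 g4 g5 g6 => pt_k (p := d) (q := b) (s := c) (t := a) h (fun z => by ring)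
      (pt_neg h.sk g5) (pt_neg h.sk g6) (pt_neg h.sk g3) g4 (pt_neg h.sk g1) (pt_neg h.sk g2))
    (fun g1 g2 g3 g4 g5 g6 => pt_k (p := d) (q := c) (s := a) (t := b) h (fun z => by ring)
      (pt_neg h.sk g6) (pt_neg h.sk g3) (pt_neg h.sk g5) (pt_neg h.sk g2) (pt_neg h.sk g4) g1)
    (fun g1 g2 g3 g4 g5 g6 => pt_k (p := d) (q := c) (s := b) (t := a) h (fun z => by ring)
      (pt_neg h.sk g6) (pt_neg h.sk g5) (pt_neg h.sk g3) (pt_neg h.sk g4) (pt_neg h.sk g2) (pt_neg h.sk g1))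
  rcases key with h0 | ⟨h0, hk⟩
  · rw [h0, mul_zero]
    positivity
  · rw [h0]
    have h2 : ka M a b c d ^ 2 ≤ E ^ 2 := by
      rw [← sq_abs]
      exact pow_le_pow_left₀ (abs_nonneg _) hk 2
    linarith

theorem deg_le (h : Sk M) (a b c d : V) :
    ka M a b c d ^ 2 * (3 - QQ M a b c d - WW M a b c d) ≤ 18 * ka M a b c d ^ 2 := by
  have hm : ∀ x y z w : V, |M x y * M z w| ≤ 1 := fun x y z w =>
    abs_mul_le_one (h.abs_le x y) (h.abs_le z w)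
  have hq : ∀ x y z w x' y' z' w' : V, |M x y * M z w * (M x' y' * M z' w')| ≤ 1 :=
    fun x y z w x' y' z' w' => abs_mul_le_one (hm x y z w) (hm x' y' z' w')
  have hcy : ∀ x y z : V, -3 ≤ cy M x y z := by
    intro x y z
    have h1 := abs_le.1 (hm x y y z)
    have h2 := abs_le.1 (hm y z z x)
    have h3 := abs_le.1 (hm z x x y)
    rw [cy]
    linarith [h1.1, h2.1, h3.1]
  have h1 : -12 ≤ WW M a b c d := by
    rw [WW]
    linarith [hcy a b c, hcy a b d, hcy a c d, hcy b c d]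
  have h2 : -3 ≤ QQ M a b c d := by
    have g1 := abs_le.1 (hq a b c d a c b d)
    have g2 := abs_le.1 (hq a c b d a d b c)
    have g3 := abs_le.1 (hq a b c d a d b c)
    rw [QQ]
    linarith [g1.2, g2.2, g3.1]
  have h3 : 3 - QQ M a b c d - WW M a b c d ≤ 18 := by linarith
  have h4 := mul_le_mul_of_nonneg_left h3 (sq_nonneg (ka M a b c d))
  linarith

end Pool.Agent.Work.MP_40b2ba_co
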