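import Pool.Agent.Work.MP_40b2ba_co.Basic

set_option autoImplicit false
set_option linter.unusedSectionVars false

/-!
# Relab (size S-M): renaming the variables

`ka` is symmetric (`ka_12`, `ka_23`, `ka_34`).
`sum_qq`: `ip GG (sw GG) = ∑ ka a b c d * ka a c b d * M a b M c d M a c M b d` and `ka a c b d = ka a b c d`.  The first term of `QQ` gives `- ip`.
Second term: rename `(a,b,c,d) := (a,d',b',c')` (i.e. `b' = c`, `c' = d`, `d' = b`): `M a c M b d M a d M b c = M a b' M d' c' M a c' M d' b' =
M a b' M c' d' M a c' M b' d'`, so it also gives `- ip`.  Third term: exchange `c` and `d`: `M a b M c d M a d M b c` becomes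
`M a b M d c M a c M b d = - M a b M c d M a c M b d`, again `- ip`.
`sum_ww`: each of the twelve products of `WW` (for instance `M b c M c a`) becomes `M a b M b c` after renaming; `WW` consists of four `cy`, each
of three products.  (Use `Finset.sum_comm` to permute the sums; a general lemma: the sum of `H a b c d` over all four variables is invariant
under the exchange of neighbouring variables.)
-/

namespace Pool.Agent.Work.MP_40b2ba_co

variable {V : Type*} [Fintype V] {M : V → V → ℝ}

private noncomputable def S4 (H : V → V → V → V → ℝ) : ℝ := ∑ a, ∑ b, ∑ c, ∑ d, H a b c d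

private theorem s12 (H : V → V → V → V → ℝ) : S4 (fun a b c d => H b a c d) = S4 H := by
  unfold S4
  exact Finset.sum_comm

private theorem s23 (H : V → V → V → V → ℝ) : S4 (fun a b c d => H a c b d) = S4 H := by
  unfold S4
  exact Finset.sum_congr rfl fun a _ => Finset.sum_comm

private theorem s34 (H : V → V → V → V → ℝ) : S4 (fun a b c d => H a b d c) = S4 H := by
  unfold S4
  exact Finset.sum_congr rfl fun a _ => Finset.sum_congr rfl fun b _ => Finset.sum_comm

private theorem s4_congr {H H' : V → V → V → V → ℝ} (h : ∀ a b c d, H a b c d = H' a b c d) :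
    S4 H = S4 H' := by
  unfold S4
  exact Finset.sum_congr rfl fun a _ => Finset.sum_congr rfl fun b _ =>
    Finset.sum_congr rfl fun c _ => Finset.sum_congr rfl fun d _ => h a b c d

private theorem s4_add (H H' : V → V → V → V → ℝ) :
    S4 (fun a b c d => H a b c d + H' a b c d) = S4 H + S4 H' := by
  unfold S4
  simp only [Finset.sum_add_distrib]

private theorem s4_neg (H : V → V → V → V → ℝ) :
    S4 (fun a b c d => - H a b c d) = - S4 H := by
  unfold S4
  simp only [Finset.sum_neg_distrib]

theorem sum_qq (h : Sk M) :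
    ∑ a, ∑ b, ∑ c, ∑ d, ka M a b c d ^ 2 * QQ M a b c d = -3 * ip (GG M) (sw (GG M)) := by
  set P : V → V → V → V → ℝ := fun a b c d =>
    ka M a b c d ^ 2 * (M a b * M c d * (M a c * M b d)) with hP
  set H2 : V → V → V → V → ℝ := fun a b c d =>
    ka M a b c d ^ 2 * (M a c * M b d * (M a d * M b c)) with hH2
  set H3 : V → V → V → V → ℝ := fun a b c d =>
    ka M a b c d ^ 2 * (M a b * M c d * (M a d * M b c)) with hH3
  have e0 : ip (GG M) (sw (GG M)) = S4 P := by
    unfold ip
    refine s4_congr (H := fun a b c d => GG M a b c d * sw (GG M) a b c d) fun a b c d => ?_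
    simp only [sw, GG, hP, ka_23]
    ring
  have e2 : S4 H2 = S4 P := by
    have h1 : S4 (fun a b c d => H2 a d b c) = S4 H2 :=
      (s34 (fun a b c d => H2 a c b d)).trans (s23 H2)
    rw [← h1]
    refine s4_congr fun a b c d => ?_
    simp only [hH2, hP]
    have h2 : ka M a d b c = ka M a b c d := by
      rw [ka_23 M a b d c, ka_34 M a b c d]
    rw [h2, h.skew d c, h.skew d b]
    ring
  have e3 : S4 H3 = - S4 P := by
    rw [← s34 H3, ← s4_neg]
    refine s4_congr fun a b c d => ?_
    simp only [hH3, hP]
    rw [ka_34 M a b c d, h.skew d c]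
    ring
  have e1 : ∑ a, ∑ b, ∑ c, ∑ d, ka M a b c d ^ 2 * QQ M a b c d =
      S4 (fun a b c d => (- P a b c d + - H2 a b c d) + H3 a b c d) := by
    refine s4_congr (H := fun a b c d => ka M a b c d ^ 2 * QQ M a b c d) fun a b c d => ?_
    simp only [QQ, hP, hH2, hH3]
    ring
  rw [e1, s4_add (fun a b c d => - P a b c d + - H2 a b c d) H3,
    s4_add (fun a b c d => - P a b c d) (fun a b c d => - H2 a b c d), s4_neg, s4_neg, e2, e3, e0]
  ring

theorem sum_ww (M : V → V → ℝ) : ∑ a, ∑ b, ∑ c, ∑ d, ka M a b c d ^ 2 * WW M a b c d =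
    12 * ∑ a, ∑ b, ∑ c, ∑ d, ka M a b c d ^ 2 * (M a b * M b c) := by
  set H : V → V → V → V → ℝ := fun a b c d => ka M a b c d ^ 2 * (M a b * M b c) with hH
  -- the permuted functions
  have q2 : S4 (fun a b c d => H b c a d) = S4 H :=
    (s12 (fun a b c d => H a c b d)).trans (s23 H)
  have q3 : S4 (fun a b c d => H c a b d) = S4 H :=
    (s23 (fun a b c d => H b a c d)).trans (s12 H)
  have q4 : S4 (fun a b c d => H a b d c) = S4 H := s34 H
  have q5 : S4 (fun a b c d => H b d a c) = S4 H :=
    (s34 (fun a b c d => H b c a d)).trans q2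
  have q6 : S4 (fun a b c d => H d a b c) = S4 H :=
    (s34 (fun a b c d => H c a b d)).trans q3
  have q7 : S4 (fun a b c d => H a c d b) = S4 H :=
    (s23 (fun a b c d => H a b d c)).trans q4
  have q8 : S4 (fun a b c d => H c d a b) = S4 H :=
    (s23 (fun a b c d => H b d a c)).trans q5
  have q9 : S4 (fun a b c d => H d a c b) = S4 H :=
    (s23 (fun a b c d => H d a b c)).trans q6
  have q10 : S4 (fun a b c d => H b c d a) = S4 H :=
    (s12 (fun a b c d => H a c d b)).trans q7
  have q11 : S4 (fun a b c d => H c d b a) = S4 H :=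
    (s12 (fun a b c d => H c d a b)).trans q8
  have q12 : S4 (fun a b c d => H d b c a) = S4 H :=
    (s12 (fun a b c d => H d a c b)).trans q9
  have e1 : ∑ a, ∑ b, ∑ c, ∑ d, ka M a b c d ^ 2 * WW M a b c d =
      S4 (fun a b c d => H a b c d + (H b c a d + (H c a b d + (H a b d c + (H b d a c +
        (H d a b c + (H a c d b + (H c d a b + (H d a c b + (H b c d a + (H c d b a +
          H d b c a))))))))))) := by
    refine s4_congr (H := fun a b c d => ka M a b c d ^ 2 * WW M a b c d) fun a b c d => ?_
    have k2 : ka M b c a d = ka M a b c d := by rw [← ka_12 M a b c d, ka_23 M b a c d]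
    have k3 : ka M c a b d = ka M a b c d := by rw [ka_12 M a c b d, ka_23 M a b c d]
    have k4 : ka M a b d c = ka M a b c d := ka_34 M a b c d
    have k5 : ka M b d a c = ka M a b c d := by
      rw [ka_23 M b a d c, ka_12 M a b d c, ka_34 M a b c d]
    have k6 : ka M d a b c = ka M a b c d := by
      rw [ka_12 M a d b c, ka_23 M a b d c, ka_34 M a b c d]
    have k7 : ka M a c d b = ka M a b c d := by
      rw [ka_34 M a c b d, ka_23 M a b c d]
    have k8 : ka M c d a b = ka M a b c d := by
      rw [ka_23 M c a d b, ka_12 M a c d b, k7]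
    have k9 : ka M d a c b = ka M a b c d := by
      rw [ka_34 M d a b c, k6]
    have k10 : ka M b c d a = ka M a b c d := by
      rw [ka_34 M b c a d, k2]
    have k11 : ka M c d b a = ka M a b c d := by
      rw [ka_34 M c d a b, k8]
    have k12 : ka M d b c a = ka M a b c d := by
      rw [ka_12 M b d c a, ka_23 M b c d a, k10]
    simp only [hH, WW, cy, k2, k3, k4, k5, k6, k7, k8, k9, k10, k11, k12]
    ring
  rw [e1]
  rw [s4_add H, s4_add (fun a b c d => H b c a d), s4_add (fun a b c d => H c a b d),
    s4_add (fun a b c d => H a b d c), s4_add (fun a b c d => H b d a c),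
    s4_add (fun a b c d => H d a b c), s4_add (fun a b c d => H a c d b),
    s4_add (fun a b c d => H c d a b), s4_add (fun a b c d => H d a c b),
    s4_add (fun a b c d => H b c d a), s4_add (fun a b c d => H c d b a) (fun a b c d => H d b c a),
    q2, q3, q4, q5, q6, q7, q8, q9, q10, q11, q12]
  have e2 : ∑ a, ∑ b, ∑ c, ∑ d, ka M a b c d ^ 2 * (M a b * M b c) = S4 H := rfl
  rw [e2]
  ring

end Pool.Agent.Work.MP_40b2ba_co
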