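import Pool.Agent.Work.MP_40b2ba_co.SumSq

set_option autoImplicit false
set_option linter.unusedSectionVars false

/-!
# XSum (size S-M): `∑ ka² M a b M b c` is small

`x_eq`: expand `ka² = ∑_{z,w} M a z M b z M c z M d z M a w M b w M c w M d w`; the sum over `d` is `pp z w` (`pp_col`), the sum over `a`
of `M a z M a w M a b` is `- ta z w b` (three sign changes), the sum over `c` of `M c z M c w M b c` is `ta z w b` (two sign changes).
`x_le`: terms `z = w`: `|pp z z| ≤ N` (`abs_pp_le`), `|ta z z b| ≤ 2 E` (`Small.ta_self_le`), `|M b z| ≤ 1`: together at most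
`N * N * N * 4 E² ≤ 4 N^4 E` (as `E ≤ N`); terms `z ≠ w`: at most `E * ∑ ta² ≤ 2 N^4 E` (`sum_ta_le`).
-/

namespace Pool.Agent.Work.MP_40b2ba_co

variable {V : Type*} [Fintype V] {M : V → V → ℝ} {E : ℝ}

private theorem out (F : V → V → V → ℝ) :
    ∑ d, ∑ z, ∑ w, F d z w = ∑ z, ∑ w, ∑ d, F d z w := by
  rw [Finset.sum_comm]
  exact Finset.sum_congr rfl fun z _ => Finset.sum_comm

private theorem inner (h : Sk M) (z w : V) :
    ∑ a, ∑ b, ∑ c, ∑ d, (M a z * M a w * M a b) * (M b z * M b w) * (M c z * M c w * M b c) * (M d z * M d w) =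
      - (pp M z w * ∑ b, M b z * M b w * ta M z w b ^ 2) := by
  have h1 : ∀ a b c, ∑ d, (M a z * M a w * M a b) * (M b z * M b w) * (M c z * M c w * M b c) * (M d z * M d w) =
      (M a z * M a w * M a b) * (M b z * M b w) * (M c z * M c w * M b c) * pp M z w := fun a b c => by
    rw [← Finset.mul_sum, pp_col h]
  have h2 : ∀ b, ∑ c, M c z * M c w * M b c = ta M z w b := fun b =>
    Finset.sum_congr rfl fun c _ => by
      rw [h.skew c z, h.skew c w]
      ring
  have h3 : ∀ b, ∑ a, M a z * M a w * M a b = - ta M z w b := fun b => by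
    rw [ta, ← Finset.sum_neg_distrib]
    exact Finset.sum_congr rfl fun a _ => by
      rw [h.skew a z, h.skew a w, h.skew a b]
      ring
  simp_rw [h1]
  have h4 : ∀ a b, ∑ c, (M a z * M a w * M a b) * (M b z * M b w) * (M c z * M c w * M b c) * pp M z w =
      (M a z * M a w * M a b) * ((M b z * M b w) * ta M z w b * pp M z w) := fun a b => by
    rw [← Finset.sum_mul, ← Finset.mul_sum, h2]
    ring
  simp_rw [h4]
  rw [Finset.sum_comm]
  have h5 : ∀ b, ∑ a, (M a z * M a w * M a b) * ((M b z * M b w) * ta M z w b * pp M z w) =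
      - (pp M z w * (M b z * M b w * ta M z w b ^ 2)) := fun b => by
    rw [← Finset.sum_mul, h3]
    ring
  simp_rw [h5]
  rw [Finset.sum_neg_distrib, Finset.mul_sum]

theorem x_eq (h : Sk M) : ∑ a, ∑ b, ∑ c, ∑ d, ka M a b c d ^ 2 * (M a b * M b c) =
    - ∑ z, ∑ w, pp M z w * ∑ b, M b z * M b w * ta M z w b ^ 2 := by
  have h0 : ∀ a b c d, ka M a b c d ^ 2 * (M a b * M b c) =
      ∑ z, ∑ w, (M a z * M a w * M a b) * (M b z * M b w) * (M c z * M c w * M b c) * (M d z * M d w) := by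
    intro a b c d
    rw [sq, ka, Finset.sum_mul_sum, Finset.sum_mul]
    refine Finset.sum_congr rfl fun z _ => ?_
    rw [Finset.sum_mul]
    exact Finset.sum_congr rfl fun w _ => by ring
  simp_rw [h0]
  rw [Finset.sum_congr rfl fun a _ => Finset.sum_congr rfl fun b _ => Finset.sum_congr rfl fun c _ =>
    out (fun d z w => (M a z * M a w * M a b) * (M b z * M b w) * (M c z * M c w * M b c) * (M d z * M d w))]
  rw [Finset.sum_congr rfl fun a _ => Finset.sum_congr rfl fun b _ =>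
    out (fun c z w => ∑ d, (M a z * M a w * M a b) * (M b z * M b w) * (M c z * M c w * M b c) * (M d z * M d w))]
  rw [Finset.sum_congr rfl fun a _ =>
    out (fun b z w => ∑ c, ∑ d,
      (M a z * M a w * M a b) * (M b z * M b w) * (M c z * M c w * M b c) * (M d z * M d w))]
  rw [out (fun a z w => ∑ b, ∑ c, ∑ d,
      (M a z * M a w * M a b) * (M b z * M b w) * (M c z * M c w * M b c) * (M d z * M d w))]
  rw [← Finset.sum_neg_distrib]
  refine Finset.sum_congr rfl fun z _ => ?_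
  rw [← Finset.sum_neg_distrib]
  exact Finset.sum_congr rfl fun w _ => inner h z w

theorem x_le (h : Small M E) : |∑ a, ∑ b, ∑ c, ∑ d, ka M a b c d ^ 2 * (M a b * M b c)| ≤
    6 * (Fintype.card V : ℝ) ^ 4 * E := by
  classical
  rw [x_eq h.sk, abs_neg]
  have hN := h.N_ge
  have hE := h.E_sq_le
  have hE1 := h.one
  have hEN := h.E_le
  have hT := sum_ta_le h
  have hpp := abs_pp_le h.sk
  set N : ℝ := ((Fintype.card V : ℕ) : ℝ) with hNdef
  have hS : ∀ z w, |∑ b, M b z * M b w * ta M z w b ^ 2| ≤ ∑ b, ta M z w b ^ 2 := by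
    intro z w
    refine (Finset.abs_sum_le_sum_abs _ _).trans (Finset.sum_le_sum fun b _ => ?_)
    rw [abs_mul, abs_of_nonneg (sq_nonneg (ta M z w b))]
    have := abs_mul_le_one (h.sk.abs_le b z) (h.sk.abs_le b w)
    nlinarith [sq_nonneg (ta M z w b)]
  have h1 : ∀ z w, |pp M z w * ∑ b, M b z * M b w * ta M z w b ^ 2| ≤
      (if w = z then 4 * N ^ 2 * E ^ 2 else 0) + E * ∑ b, ta M z w b ^ 2 := by
    intro z w
    have h0 : 0 ≤ ∑ b, ta M z w b ^ 2 := Finset.sum_nonneg fun b _ => sq_nonneg _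
    rw [abs_mul]
    by_cases hw : w = z
    · rw [if_pos hw, hw] at *
      have h2 : ∑ b, ta M z z b ^ 2 ≤ N * (4 * E ^ 2) := by
        have h3 : ∀ b ∈ (Finset.univ : Finset V), ta M z z b ^ 2 ≤ 4 * E ^ 2 := by
          intro b _
          have h4 := h.ta_self_le z b
          rw [← sq_abs]
          nlinarith [abs_nonneg (ta M z z b)]
        refine (Finset.sum_le_sum h3).trans (le_of_eq ?_)
        rw [Finset.sum_const, nsmul_eq_mul, Finset.card_univ]
      have h3 : |pp M z z| * |∑ b, M b z * M b z * ta M z z b ^ 2| ≤ N * (N * (4 * E ^ 2)) :=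
        mul_le_mul (hpp z z) ((hS z z).trans h2) (abs_nonneg _) (by linarith)
      have h4 : 0 ≤ E * ∑ b, ta M z z b ^ 2 := by
        have : 0 ≤ ∑ b, ta M z z b ^ 2 := Finset.sum_nonneg fun b _ => sq_nonneg _
        nlinarith
      nlinarith
    · rw [if_neg hw, zero_add]
      exact mul_le_mul (h.p z w (Ne.symm hw)) (hS z w) (abs_nonneg _) (by linarith)
  have h2 : |∑ z, ∑ w, pp M z w * ∑ b, M b z * M b w * ta M z w b ^ 2| ≤
      ∑ z, ∑ w, ((if w = z then 4 * N ^ 2 * E ^ 2 else 0) + E * ∑ b, ta M z w b ^ 2) := by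
    refine (Finset.abs_sum_le_sum_abs _ _).trans (Finset.sum_le_sum fun z _ => ?_)
    exact (Finset.abs_sum_le_sum_abs _ _).trans (Finset.sum_le_sum fun w _ => h1 z w)
  refine h2.trans ?_
  have h3 : ∑ z : V, ∑ w : V, ((if w = z then 4 * N ^ 2 * E ^ 2 else 0) + E * ∑ b, ta M z w b ^ 2) =
      N * (4 * N ^ 2 * E ^ 2) + E * ∑ z, ∑ w, ∑ b, ta M z w b ^ 2 := by
    have h4 : ∀ z : V, ∑ w : V, ((if w = z then 4 * N ^ 2 * E ^ 2 else 0) + E * ∑ b, ta M z w b ^ 2) =
        4 * N ^ 2 * E ^ 2 + E * ∑ w, ∑ b, ta M z w b ^ 2 := by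
      intro z
      rw [Finset.sum_add_distrib, Finset.sum_ite_eq', if_pos (Finset.mem_univ z), Finset.mul_sum]
    rw [Finset.sum_congr rfl fun z _ => h4 z, Finset.sum_add_distrib, Finset.sum_const, nsmul_eq_mul,
      Finset.card_univ, ← Finset.mul_sum]
  rw [h3]
  have h5 : E * ∑ z, ∑ w, ∑ b, ta M z w b ^ 2 ≤ E * (2 * N ^ 4) := mul_le_mul_of_nonneg_left hT (by linarith)
  have h6 : N ^ 3 * E ^ 2 ≤ N ^ 4 * E := by
    have h7 : 0 ≤ N ^ 3 * E := by positivity
    have h8 : N ^ 3 * E ^ 2 = N ^ 3 * E * E := by ring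
    have h9 : N ^ 4 * E = N ^ 3 * E * N := by ring
    rw [h8, h9]
    exact mul_le_mul_of_nonneg_left hEN h7
  nlinarith

end Pool.Agent.Work.MP_40b2ba_co
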