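import Pool.Agent.Work.MP_40b2ba_co.SumSq
import Pool.Agent.Work.MP_40b2ba_co.XSum
import Pool.Agent.Work.MP_40b2ba_co.Point
import Pool.Agent.Work.MP_40b2ba_co.Degen
import Pool.Agent.Work.MP_40b2ba_co.Relab

/-!
# NegIp (size S): `ip GG (sw GG) ≤ - N^5 / 2`

Sum `point_le` (distinct) and `deg_le` (otherwise) over all quadruples:
`∑ ka² (3 - QQ - WW) ≤ 8 E² N^4 + 18 * 30 N^4` (`degen_le`).  The left side is `3 K + 3 ip - 12 X` (`sum_qq`, `sum_ww`), `K = ∑ ka²`,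
`X = ∑ ka² M a b M b c`.  So `ip ≤ - K + 4 X + (8/3) E² N^4 + 180 N^4`, `K ≥ N (N-1)^4 ≥ N^5 - 4 N^4` (`sum_ka_ge`), `X ≤ 6 N^4 E` (`x_le`),
and `184 + 24 E + 3 E² ≤ N / 2` because `40000 E² ≤ N`, `1 ≤ E`.
-/

set_option autoImplicit false
set_option linter.unusedSectionVars false

/-!
# NegIp (size S): `ip GG (sw GG) ≤ - N^5 / 2`

Sum `point_le` (distinct) and `deg_le` (otherwise) over all quadruples:
`∑ ka² (3 - QQ - WW) ≤ 8 E² N^4 + 18 * 30 N^4` (`degen_le`).  The left side is `3 K + 3 ip - 12 X` (`sum_qq`, `sum_ww`), `K = ∑ ka²`,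
`X = ∑ ka² M a b M b c`.  So `ip ≤ - K + 4 X + (8/3) E² N^4 + 180 N^4`, `K ≥ N (N-1)^4 ≥ N^5 - 4 N^4` (`sum_ka_ge`), `X ≤ 6 N^4 E` (`x_le`),
and `184 + 24 E + 3 E² ≤ N / 2` because `40000 E² ≤ N`, `1 ≤ E`.
-/

namespace Pool.Agent.Work.MP_40b2ba_co

variable {V : Type*} [Fintype V] {M : V → V → ℝ} {E : ℝ}

private theorem nsum_le4 {g k : V → V → V → V → ℝ} (hgk : ∀ a b c d, g a b c d ≤ k a b c d) :
    ∑ a, ∑ b, ∑ c, ∑ d, g a b c d ≤ ∑ a, ∑ b, ∑ c, ∑ d, k a b c d :=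
  Finset.sum_le_sum fun a _ => Finset.sum_le_sum fun b _ => Finset.sum_le_sum fun c _ =>
    Finset.sum_le_sum fun d _ => hgk a b c d

theorem neg_ip (h : Small M E) : ip (GG M) (sw (GG M)) ≤ - ((Fintype.card V : ℝ) ^ 5 / 2) := by
  classical
  set N : ℝ := (Fintype.card V : ℝ) with hN
  have h1 : ∀ a b c d, ka M a b c d ^ 2 * (3 - QQ M a b c d - WW M a b c d) ≤
      8 * E ^ 2 + 18 * (if a = b ∨ a = c ∨ a = d ∨ b = c ∨ b = d ∨ c = d then ka M a b c d ^ 2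
        else 0) := by
    intro a b c d
    split_ifs with hd
    · have := deg_le h.sk a b c d
      nlinarith [sq_nonneg E]
    · push Not at hd
      obtain ⟨e1, e2, e3, e4, e5, e6⟩ := hd
      have := point_le h e1 e2 e3 e4 e5 e6
      linarith
  have h2 := nsum_le4 h1
  have h3 : ∑ a, ∑ b, ∑ c, ∑ d, ka M a b c d ^ 2 * (3 - QQ M a b c d - WW M a b c d) =
      3 * (∑ a, ∑ b, ∑ c, ∑ d, ka M a b c d ^ 2) -
      (∑ a, ∑ b, ∑ c, ∑ d, ka M a b c d ^ 2 * QQ M a b c d) -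
      (∑ a, ∑ b, ∑ c, ∑ d, ka M a b c d ^ 2 * WW M a b c d) := by
    simp only [Finset.mul_sum, ← Finset.sum_sub_distrib]
    refine Finset.sum_congr rfl fun a _ => Finset.sum_congr rfl fun b _ =>
      Finset.sum_congr rfl fun c _ => Finset.sum_congr rfl fun d _ => ?_
    ring
  have h4 : ∑ a : V, ∑ b : V, ∑ c : V, ∑ d : V, (8 * E ^ 2 +
      18 * (if a = b ∨ a = c ∨ a = d ∨ b = c ∨ b = d ∨ c = d then ka M a b c d ^ 2 else 0)) =
      8 * E ^ 2 * N ^ 4 + 18 * ∑ a, ∑ b, ∑ c, ∑ d,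
        (if a = b ∨ a = c ∨ a = d ∨ b = c ∨ b = d ∨ c = d then ka M a b c d ^ 2 else 0) := by
    simp only [Finset.sum_add_distrib, Finset.mul_sum]
    congr 1
    simp only [Finset.sum_const, Finset.card_univ, nsmul_eq_mul]
    rw [hN]
    ring
  have h5 := degen_le h
  rw [h3, h4, sum_qq h.sk, sum_ww] at h2
  have h6 := sum_ka_ge h.sk
  have h7 := (abs_le.1 (x_le h)).2
  rw [← hN] at h5 h6 h7
  set K := ∑ a, ∑ b, ∑ c, ∑ d, ka M a b c d ^ 2 with hK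
  set Y := ∑ a, ∑ b, ∑ c, ∑ d, ka M a b c d ^ 2 * (M a b * M b c) with hY
  set D := ∑ a, ∑ b, ∑ c, ∑ d,
        (if a = b ∨ a = c ∨ a = d ∨ b = c ∨ b = d ∨ c = d then ka M a b c d ^ 2 else 0) with hD
  set I := ip (GG M) (sw (GG M)) with hI
  have hE1 := h.one
  have hbig := h.big
  have hN4 := h.N_ge
  rw [← hN] at hbig hN4
  have hN0 : 0 ≤ N := by linarith
  have h8 : N ^ 5 - 4 * N ^ 4 ≤ N * (N - 1) ^ 4 := by
    have e : N * (N - 1) ^ 4 - (N ^ 5 - 4 * N ^ 4) = N * (6 * N ^ 2 - 4 * N + 1) := by ring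
    have e2 : 0 ≤ 6 * N ^ 2 - 4 * N + 1 := by nlinarith
    have e3 := mul_nonneg hN0 e2
    linarith
  have h9 : 184 + 24 * E + 3 * E ^ 2 ≤ N / 2 := by nlinarith
  have h10 : N ^ 4 * (184 + 24 * E + 3 * E ^ 2) ≤ N ^ 4 * (N / 2) :=
    mul_le_mul_of_nonneg_left h9 (by positivity)
  have h11 : 0 ≤ E ^ 2 * N ^ 4 := by positivity
  nlinarith

end Pool.Agent.Work.MP_40b2ba_co
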