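import Pool.Agent.Work.MP_40b2ba_co.Gram

set_option autoImplicit false
set_option linter.unusedSectionVars false

/-!
# OpG (size S): operator bound for `GG`

`∑_y x y * GG y b c d = ∑_e (∑_y x y * xi y b e) * xi c d e` (`gg_eq`, exchange the sums); by `gram_le` for fixed `b` the sum over `c, d` of its
square is at most `3 N² ∑_e (∑_y x y * xi y b e)²`, and `xi y b e = xi b e y` (`xi_rot`), so by `gram_le` again the sum over `b` is at most
`3 N² * 3 N² ∑ x²`.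
-/

namespace Pool.Agent.Work.MP_40b2ba_co

variable {V : Type*} [Fintype V] {M : V → V → ℝ} {E : ℝ}

private theorem op_eq (h : Sk M) (x : V → ℝ) (b c d : V) :
    ∑ y, x y * GG M y b c d = ∑ e, (∑ y, x y * xi M b e y) * xi M c d e := by
  have h1 : ∀ y, x y * GG M y b c d = ∑ e, x y * xi M b e y * xi M c d e := by
    intro y
    rw [gg_eq h, Finset.mul_sum]
    refine Finset.sum_congr rfl fun e _ => ?_
    rw [xi_rot M y b e]
    ring
  rw [Finset.sum_congr rfl fun y _ => h1 y, Finset.sum_comm]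
  refine Finset.sum_congr rfl fun e _ => ?_
  rw [Finset.sum_mul]

theorem gg_op (h : Small M E) (x : V → ℝ) :
    ∑ b, ∑ c, ∑ d, (∑ y, x y * GG M y b c d) ^ 2 ≤ 9 * (Fintype.card V : ℝ) ^ 4 * ∑ y, x y ^ 2 := by
  have h1 : ∀ b, ∑ c, ∑ d, (∑ y, x y * GG M y b c d) ^ 2 ≤
      3 * (Fintype.card V : ℝ) ^ 2 * ∑ e, (∑ y, x y * xi M b e y) ^ 2 := by
    intro b
    have h2 : ∑ c, ∑ d, (∑ y, x y * GG M y b c d) ^ 2 =
        ∑ c, ∑ d, (∑ e, (∑ y, x y * xi M b e y) * xi M c d e) ^ 2 := by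
      refine Finset.sum_congr rfl fun c _ => Finset.sum_congr rfl fun d _ => ?_
      rw [op_eq h.sk]
    rw [h2]
    exact gram_le h fun e => ∑ y, x y * xi M b e y
  have h3 := gram_le h x
  calc ∑ b, ∑ c, ∑ d, (∑ y, x y * GG M y b c d) ^ 2
      ≤ ∑ b, 3 * (Fintype.card V : ℝ) ^ 2 * ∑ e, (∑ y, x y * xi M b e y) ^ 2 :=
        Finset.sum_le_sum fun b _ => h1 b
    _ = 3 * (Fintype.card V : ℝ) ^ 2 * ∑ b, ∑ e, (∑ y, x y * xi M b e y) ^ 2 := by
        rw [Finset.mul_sum]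
    _ ≤ 3 * (Fintype.card V : ℝ) ^ 2 * (3 * (Fintype.card V : ℝ) ^ 2 * ∑ e, x e ^ 2) := by
        refine mul_le_mul_of_nonneg_left h3 ?_
        positivity
    _ = 9 * (Fintype.card V : ℝ) ^ 4 * ∑ y, x y ^ 2 := by ring

end Pool.Agent.Work.MP_40b2ba_co
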